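import Pool.Agent.H60.QV.Deco

/-! # The chains `Om R` and their automorphisms -/

set_option autoImplicit false
set_option linter.unusedSectionVars false

namespace Pool.Agent.H60.QV

open Set

/-- `ℤ` copies of `{-∞} ∪ ℝ`, one after the other. -/
abbrev BB : Type := ℤ ×ₗ WithBot ℝ

/-- The point `-∞` of the copy `n`. -/
def pb (n : ℤ) : BB := toLex (n, ⊥)
/-- The point `x` of the copy `n`. -/
def pr (n : ℤ) (x : ℝ) : BB := toLex (n, (x : WithBot ℝ))

lemma BB_cases (p : BB) : (∃ n, p = pb n) ∨ ∃ n x, p = pr n x := by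
  obtain ⟨⟨n, x⟩, rfl⟩ := toLex.surjective p
  induction x using WithBot.recBotCoe with
  | bot => exact Or.inl ⟨n, rfl⟩
  | coe x => exact Or.inr ⟨n, x, rfl⟩

lemma pb_lt_pb {n m : ℤ} : pb n < pb m ↔ n < m := by
  simp [pb, Prod.Lex.toLex_lt_toLex]

lemma pb_lt_pr {n m : ℤ} {x : ℝ} : pb n < pr m x ↔ n ≤ m := by
  simp [pb, pr, Prod.Lex.toLex_lt_toLex, le_iff_lt_or_eq]

lemma pr_lt_pb {n m : ℤ} {x : ℝ} : pr n x < pb m ↔ n < m := by
  simp [pb, pr, Prod.Lex.toLex_lt_toLex]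

lemma pr_lt_pr {n m : ℤ} {x y : ℝ} : pr n x < pr m y ↔ n < m ∨ n = m ∧ x < y := by
  simp [pr, Prod.Lex.toLex_lt_toLex]

lemma pb_inj {n m : ℤ} : pb n = pb m ↔ n = m := by
  simp [pb]

lemma pr_inj {n m : ℤ} {x y : ℝ} : pr n x = pr m y ↔ n = m ∧ x = y := by
  simp [pr]

lemma pb_ne_pr {n m : ℤ} {y : ℝ} : pb n ≠ pr m y := by
  simp [pb, pr]

lemma max_pb (n m : ℤ) : max (pb n) (pb m) = pb (max n m) := by
  rcases lt_trichotomy n m with h | rfl | h
  · rw [max_eq_right h.le, max_eq_right (pb_lt_pb.2 h).le]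
  · simp
  · rw [max_eq_left h.le, max_eq_left (pb_lt_pb.2 h).le]

lemma min_pb (n m : ℤ) : min (pb n) (pb m) = pb (min n m) := by
  rcases lt_trichotomy n m with h | rfl | h
  · rw [min_eq_left h.le, min_eq_left (pb_lt_pb.2 h).le]
  · simp
  · rw [min_eq_right h.le, min_eq_right (pb_lt_pb.2 h).le]

lemma max_pr (n : ℤ) (x y : ℝ) : max (pr n x) (pr n y) = pr n (max x y) := by
  rcases lt_trichotomy x y with h | rfl | h
  · rw [max_eq_right h.le, max_eq_right (pr_lt_pr.2 (Or.inr ⟨rfl, h⟩)).le]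
  · simp
  · rw [max_eq_left h.le, max_eq_left (pr_lt_pr.2 (Or.inr ⟨rfl, h⟩)).le]

lemma min_pr (n : ℤ) (x y : ℝ) : min (pr n x) (pr n y) = pr n (min x y) := by
  rcases lt_trichotomy x y with h | rfl | h
  · rw [min_eq_left h.le, min_eq_left (pr_lt_pr.2 (Or.inr ⟨rfl, h⟩)).le]
  · simp
  · rw [min_eq_right h.le, min_eq_right (pr_lt_pr.2 (Or.inr ⟨rfl, h⟩)).le]

lemma down_aux (x y : WithBot ℝ) (h : x < y) :
    ∃ s : ℕ → ℝ, StrictAnti s ∧ ∀ k, x ≤ (s k : WithBot ℝ) ∧ (s k : WithBot ℝ) ≤ y := by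
  induction y using WithBot.recBotCoe with
  | bot => exact absurd h not_lt_bot
  | coe y =>
    induction x using WithBot.recBotCoe with
    | bot =>
      refine ⟨fun k => y - k, fun i j hij => ?_, fun k => ⟨bot_le, ?_⟩⟩
      · have : (i : ℝ) < j := by exact_mod_cast hij
        show y - j < y - i
        linarith
      · rw [WithBot.coe_le_coe]
        have : (0 : ℝ) ≤ k := k.cast_nonneg
        linarith
    | coe x =>
      have h' : x < y := by simpa using h
      have h0 : 0 < y - x := by linarith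
      refine ⟨fun k => x + (y - x) / (k + 1), fun i j hij => ?_, fun k => ⟨?_, ?_⟩⟩
      · have : (i : ℝ) < j := by exact_mod_cast hij
        have hi : (0 : ℝ) ≤ i := i.cast_nonneg
        show x + (y - x) / (j + 1) < x + (y - x) / (i + 1)
        have := div_lt_div_of_pos_left h0 (by linarith : (0 : ℝ) < i + 1)
          (by linarith : (i : ℝ) + 1 < j + 1)
        linarith
      · rw [WithBot.coe_le_coe]
        have : 0 < (y - x) / ((k : ℝ) + 1) := by positivity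
        linarith
      · rw [WithBot.coe_le_coe]
        have hk : (0 : ℝ) ≤ k := k.cast_nonneg
        have : (y - x) / ((k : ℝ) + 1) ≤ y - x := div_le_self h0.le (by linarith)
        linarith

lemma down_BB : Down BB := by
  intro a b hab
  obtain ⟨⟨n, x⟩, rfl⟩ := toLex.surjective a
  obtain ⟨⟨m, y⟩, rfl⟩ := toLex.surjective b
  rw [Prod.Lex.toLex_lt_toLex] at hab
  have key : ∃ z : WithBot ℝ, x < z ∧ (n < m ∨ (n = m ∧ z ≤ y)) := by
    rcases hab with h | h
    · induction x using WithBot.recBotCoe with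
      | bot => exact ⟨((0 : ℝ) : WithBot ℝ), WithBot.bot_lt_coe _, Or.inl h⟩
      | coe x => exact ⟨((x + 1 : ℝ) : WithBot ℝ), by rw [WithBot.coe_lt_coe]; linarith, Or.inl h⟩
    · exact ⟨y, h.2, Or.inr ⟨h.1, le_rfl⟩⟩
  obtain ⟨z, hz, h⟩ := key
  obtain ⟨s, hs, h1⟩ := down_aux x z hz
  refine ⟨fun k => pr n (s k), fun i j hij => pr_lt_pr.2 (Or.inr ⟨rfl, hs hij⟩), fun k => ⟨?_, ?_⟩⟩
  · exact Prod.Lex.toLex_le_toLex.2 (Or.inr ⟨rfl, (h1 k).1⟩)
  · refine Prod.Lex.toLex_le_toLex.2 ?_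
    rcases h with h | ⟨h, h'⟩
    · exact Or.inl h
    · exact Or.inr ⟨h, (h1 k).2.trans h'⟩

/-- A well-ordered set of the cardinality of `ℝ / R`. -/
abbrev WR (R : AddSubgroup ℝ) : Type := (Cardinal.mk (ℝ ⧸ R)).ord.ToType

/-- A bijection. -/
noncomputable def eR (R : AddSubgroup ℝ) : (ℝ ⧸ R) ≃ WR R :=
  Classical.choice (Cardinal.eq.1 (by simp))

/-- The decoration: `⊤` at the points `-∞`, and a mark of the class modulo `R` at the points
`x`. -/
noncomputable def qq (R : AddSubgroup ℝ) (p : BB) : WithTop (WR R) :=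
  WithBot.recBotCoe (C := fun _ => WithTop (WR R)) ⊤
    (fun x => ((eR R (QuotientAddGroup.mk x) : WR R) : WithTop (WR R))) (ofLex p).2

lemma qq_pb (R : AddSubgroup ℝ) (n : ℤ) : qq R (pb n) = ⊤ := rfl
lemma qq_pr (R : AddSubgroup ℝ) (n : ℤ) (x : ℝ) :
    qq R (pr n x) = ((eR R (QuotientAddGroup.mk x) : WR R) : WithTop (WR R)) := rfl

/-- The chain `Om R`: in `ℤ` copies of `{-∞} ∪ ℝ`, one after the other, every point `p` is
replaced with the well-ordered chain `{c | c ≤ qq R p}`. -/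
def Om (R : AddSubgroup ℝ) : Type := Deco (qq R)

noncomputable instance instOm (R : AddSubgroup ℝ) : LinearOrder (Om R) :=
  inferInstanceAs (LinearOrder (Deco (qq R)))

variable {R : AddSubgroup ℝ}

lemma img_pb {ψ : Aut BB} (h : ∀ b, qq R (ψ b) = qq R b) (n : ℤ) : ∃ m, ψ (pb n) = pb m := by
  have h1 := h (pb n)
  rcases BB_cases (ψ (pb n)) with ⟨m, hm⟩ | ⟨m, x, hm⟩
  · exact ⟨m, hm⟩
  · rw [hm, qq_pb, qq_pr] at h1
    exact absurd h1 (WithTop.coe_ne_top)

lemma img_pr {ψ : Aut BB} (h : ∀ b, qq R (ψ b) = qq R b) (n : ℤ) (x : ℝ) :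
    ∃ m y, ψ (pr n x) = pr m y ∧ y - x ∈ R := by
  have h1 := h (pr n x)
  rcases BB_cases (ψ (pr n x)) with ⟨m, hm⟩ | ⟨m, y, hm⟩
  · rw [hm, qq_pb, qq_pr] at h1
    exact absurd h1.symm (WithTop.coe_ne_top)
  · refine ⟨m, y, hm, ?_⟩
    rw [hm, qq_pr, qq_pr, WithTop.coe_inj] at h1
    have h2 := (eR R).injective h1
    rw [QuotientAddGroup.eq] at h2
    have h3 := R.neg_mem h2
    have : -(-y + x) = y - x := by ring
    rwa [this] at h3

/-- The structure of the automorphisms of `BB` that keep the marks. -/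
lemma struct (hR : (R : Set ℝ).Countable) {ψ : Aut BB} (h : ∀ b, qq R (ψ b) = qq R b) :
    ∃ (k : ℤ) (r : ℤ → ℝ), (∀ n, r n ∈ R) ∧ (∀ n, ψ (pb n) = pb (n + k)) ∧
      ∀ n x, ψ (pr n x) = pr (n + k) (x + r n) := by
  have hinv : ∀ b, qq R (ψ⁻¹ b) = qq R b := inv_q h
  choose σ hσ using img_pb h
  choose σ' hσ' using img_pb hinv
  choose τ g hτ using img_pr h
  choose τ' g' hτ' using img_pr hinv
  have hσm : ∀ n m, n < m ↔ σ n < σ m := by
    intro n m
    rw [← pb_lt_pb, ← ψ.lt_iff, hσ, hσ, pb_lt_pb]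
  have hσs : ∀ n, σ (n + 1) = σ n + 1 := by
    intro n
    have h1 : ψ (pb (σ' (σ n + 1))) = pb (σ n + 1) := by
      rw [← hσ', Aut.apply_inv_self]
    rw [hσ, pb_inj] at h1
    have h2 : n < σ' (σ n + 1) := by rw [hσm, h1]; omega
    rcases (Int.add_one_le_iff.2 h2).lt_or_eq with h3 | h3
    · have h4 := (hσm _ _).1 h3
      have h5 := (hσm n (n + 1)).1 (by omega)
      omega
    · rw [← h3] at h1
      exact h1
  have hσk : ∀ n, σ n = n + σ 0 := by
    intro n
    induction n using Int.induction_on with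
    | zero => simp
    | succ n ih => rw [hσs, ih]; ring
    | pred n ih =>
      have := hσs (-(n : ℤ) - 1)
      rw [sub_add_cancel, ih] at this
      linarith
  have hτσ : ∀ n x, τ n x = σ n := by
    intro n x
    have h1 : ψ (pb n) < ψ (pr n x) := ψ.lt_iff.2 (pb_lt_pr.2 le_rfl)
    have h2 : ψ (pr n x) < ψ (pb (n + 1)) := ψ.lt_iff.2 (pr_lt_pb.2 (by omega))
    rw [hσ, (hτ n x).1, pb_lt_pr] at h1
    rw [hσ, (hτ n x).1, pr_lt_pb, hσs] at h2
    omega
  have hmono : ∀ n, StrictMono (g n) := by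
    intro n x y hxy
    have h1 : ψ (pr n x) < ψ (pr n y) := ψ.lt_iff.2 (pr_lt_pr.2 (Or.inr ⟨rfl, hxy⟩))
    rw [(hτ n x).1, (hτ n y).1, hτσ, hτσ, pr_lt_pr] at h1
    simpa using h1
  have hsurj : ∀ n, Function.Surjective (g n) := by
    intro n y
    have h1 : ψ (pr (τ' (σ n) y) (g' (σ n) y)) = pr (σ n) y := by
      rw [← (hτ' (σ n) y).1, Aut.apply_inv_self]
    rw [(hτ _ _).1, pr_inj, hτσ] at h1
    have h2 : τ' (σ n) y = n := by
      have e0 := h1.1
      have e1 := hσk (τ' (σ n) y)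
      have e2 := hσk n
      omega
    rw [h2] at h1
    exact ⟨_, h1.2⟩
  have hconst : ∀ n x, g n x = x + g n 0 := by
    intro n x
    have hc : Continuous (g n) := (hmono n).monotone.continuous_of_surjective (hsurj n)
    have hd : Continuous (fun x => g n x - x) := hc.sub continuous_id
    by_contra hne
    have hne' : g n x - x ≠ g n 0 - 0 := fun h => hne (by linarith)
    have h1 := intermediate_value_uIcc (a := x) (b := 0) (f := fun x => g n x - x) hd.continuousOn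
    have h2 : uIcc (g n x - x) (g n 0 - 0) ⊆ (R : Set ℝ) := by
      intro z hz
      obtain ⟨w, _, hw⟩ := h1 hz
      rw [← hw]
      exact (hτ n w).2
    have h3 := hR.mono h2
    rw [uIcc, ← Set.countable_coe_iff] at h3
    have h4 : Cardinal.mk (Icc ((g n x - x) ⊓ (g n 0 - 0)) ((g n x - x) ⊔ (g n 0 - 0))) =
        Cardinal.continuum := Cardinal.mk_Icc_real (inf_lt_sup.2 hne')
    have h5 := Cardinal.mk_le_aleph0_iff.2 h3
    rw [h4] at h5
    exact absurd h5 (not_le.2 Cardinal.aleph0_lt_continuum)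
  refine ⟨σ 0, fun n => g n 0, fun n => ?_, fun n => ?_, fun n x => ?_⟩
  · have := (hτ n 0).2
    simpa using this
  · rw [hσ, hσk]
  · rw [(hτ n x).1, hτσ, hσk, hconst]

/-! ### The coordinates of an automorphism -/

/-- The shift of the copies. -/
noncomputable def kk (φ : Aut (Om R)) : ℤ := (ofLex (toB (q := qq R) down_BB φ (pb 0))).1

/-- The translation of the copy `n`. -/
noncomputable def rr (φ : Aut (Om R)) (n : ℤ) : ℝ :=
  ((ofLex (toB (q := qq R) down_BB φ (pr n 0))).2).unbotD 0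

/-- The action on the points `BB`. -/
noncomputable def act (φ : Aut (Om R)) : Aut BB := toB (q := qq R) down_BB φ

lemma act_mul (φ χ : Aut (Om R)) : act (φ * χ) = act φ * act χ := toB_mul (q := qq R) _ _ _
lemma act_one : act (1 : Aut (Om R)) = 1 := toB_one (q := qq R) _
lemma act_inv (φ : Aut (Om R)) : act φ⁻¹ = (act φ)⁻¹ := toB_inv (q := qq R) _ _
lemma act_sup (φ χ : Aut (Om R)) : act (φ ⊔ χ) = act φ ⊔ act χ := toB_sup (q := qq R) _ _ _
lemma act_inf (φ χ : Aut (Om R)) : act (φ ⊓ χ) = act φ ⊓ act χ := toB_inf (q := qq R) _ _ _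
lemma act_inj {φ χ : Aut (Om R)} (h : act φ = act χ) : φ = χ := toB_inj (q := qq R) _ h

lemma act_spec (hR : (R : Set ℝ).Countable) (φ : Aut (Om R)) :
    (∀ n, rr φ n ∈ R) ∧ (∀ n, act φ (pb n) = pb (n + kk φ)) ∧
      ∀ n x, act φ (pr n x) = pr (n + kk φ) (x + rr φ n) := by
  obtain ⟨k, r, h1, h2, h3⟩ := struct hR (ψ := act φ) (q_toB (q := qq R) down_BB φ)
  have hk : kk φ = k := by
    have := h2 0
    unfold kk
    unfold act at this
    rw [this]
    simp [pb]
  have hr : ∀ n, rr φ n = r n := by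
    intro n
    have := h3 n 0
    unfold rr
    unfold act at this
    rw [this]
    simp [pr]
  refine ⟨fun n => by rw [hr]; exact h1 n, fun n => by rw [hk]; exact h2 n, fun n x => ?_⟩
  rw [hk, hr]
  exact h3 n x

lemma coord_of {φ : Aut (Om R)} {k : ℤ} (h : act φ (pb 0) = pb k) : kk φ = k := by
  unfold kk
  unfold act at h
  rw [h]
  simp [pb]

lemma coord_of' {φ : Aut (Om R)} {m n : ℤ} {x : ℝ} (h : act φ (pr n 0) = pr m x) :
    rr φ n = x := by
  unfold rr
  unfold act at h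
  rw [h]
  simp [pr]

lemma aut_ext (hR : (R : Set ℝ).Countable) {φ χ : Aut (Om R)} (h : kk φ = kk χ)
    (h' : ∀ n, rr φ n = rr χ n) : φ = χ := by
  apply act_inj
  ext p
  obtain ⟨_, a1, a2⟩ := act_spec hR φ
  obtain ⟨_, b1, b2⟩ := act_spec hR χ
  rcases BB_cases p with ⟨n, rfl⟩ | ⟨n, x, rfl⟩
  · rw [a1, b1, h]
  · rw [a2, b2, h, h']

lemma kk_one : kk (1 : Aut (Om R)) = 0 := coord_of (by rw [act_one]; rfl)
lemma rr_one (n : ℤ) : rr (1 : Aut (Om R)) n = 0 := coord_of' (m := n) (by rw [act_one]; rfl)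

lemma kk_mul (hR : (R : Set ℝ).Countable) (φ χ : Aut (Om R)) : kk (φ * χ) = kk φ + kk χ := by
  obtain ⟨_, a1, a2⟩ := act_spec hR φ
  obtain ⟨_, b1, b2⟩ := act_spec hR χ
  apply coord_of
  rw [act_mul, Aut.mul_apply, b1, a1]
  congr 1
  ring

lemma rr_mul (hR : (R : Set ℝ).Countable) (φ χ : Aut (Om R)) (n : ℤ) :
    rr (φ * χ) n = rr χ n + rr φ (n + kk χ) := by
  obtain ⟨_, a1, a2⟩ := act_spec hR φ
  obtain ⟨_, b1, b2⟩ := act_spec hR χ
  apply coord_of' (m := n + kk χ + kk φ)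
  rw [act_mul, Aut.mul_apply, b2, a2]
  congr 1
  ring

lemma kk_inv (hR : (R : Set ℝ).Countable) (φ : Aut (Om R)) : kk φ⁻¹ = -kk φ := by
  have := kk_mul hR φ⁻¹ φ
  rw [inv_mul_cancel, kk_one] at this
  linarith

lemma rr_inv (hR : (R : Set ℝ).Countable) (φ : Aut (Om R)) (n : ℤ) :
    rr φ⁻¹ n = -rr φ (n - kk φ) := by
  have := rr_mul hR φ φ⁻¹ n
  rw [mul_inv_cancel, rr_one, kk_inv hR, ← sub_eq_add_neg] at this
  linarith

lemma kk_sup (hR : (R : Set ℝ).Countable) (φ χ : Aut (Om R)) :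
    kk (φ ⊔ χ) = max (kk φ) (kk χ) := by
  obtain ⟨_, a1, a2⟩ := act_spec hR φ
  obtain ⟨_, b1, b2⟩ := act_spec hR χ
  apply coord_of
  rw [act_sup, Aut.sup_apply, a1, b1, max_pb, zero_add, zero_add]

lemma kk_inf (hR : (R : Set ℝ).Countable) (φ χ : Aut (Om R)) :
    kk (φ ⊓ χ) = min (kk φ) (kk χ) := by
  obtain ⟨_, a1, a2⟩ := act_spec hR φ
  obtain ⟨_, b1, b2⟩ := act_spec hR χ
  apply coord_of
  rw [act_inf, Aut.inf_apply, a1, b1, min_pb, zero_add, zero_add]

lemma rr_sup (hR : (R : Set ℝ).Countable) (φ χ : Aut (Om R)) (n : ℤ) :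
    rr (φ ⊔ χ) n = if kk φ < kk χ then rr χ n else if kk χ < kk φ then rr φ n
      else max (rr φ n) (rr χ n) := by
  obtain ⟨_, a1, a2⟩ := act_spec hR φ
  obtain ⟨_, b1, b2⟩ := act_spec hR χ
  rcases lt_trichotomy (kk φ) (kk χ) with h | h | h
  · rw [if_pos h]
    apply coord_of' (m := n + kk χ)
    rw [act_sup, Aut.sup_apply, a2, b2, max_eq_right
      (pr_lt_pr.2 (Or.inl (by omega))).le, zero_add]
  · rw [if_neg (by omega), if_neg (by omega)]
    apply coord_of' (m := n + kk χ)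
    rw [act_sup, Aut.sup_apply, a2, b2, h, max_pr, zero_add, zero_add]
  · rw [if_neg (by omega), if_pos h]
    apply coord_of' (m := n + kk φ)
    rw [act_sup, Aut.sup_apply, a2, b2, max_eq_left
      (pr_lt_pr.2 (Or.inl (by omega))).le, zero_add]

lemma rr_inf (hR : (R : Set ℝ).Countable) (φ χ : Aut (Om R)) (n : ℤ) :
    rr (φ ⊓ χ) n = if kk φ < kk χ then rr φ n else if kk χ < kk φ then rr χ n
      else min (rr φ n) (rr χ n) := by
  obtain ⟨_, a1, a2⟩ := act_spec hR φ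
  obtain ⟨_, b1, b2⟩ := act_spec hR χ
  rcases lt_trichotomy (kk φ) (kk χ) with h | h | h
  · rw [if_pos h]
    apply coord_of' (m := n + kk φ)
    rw [act_inf, Aut.inf_apply, a2, b2, min_eq_left
      (pr_lt_pr.2 (Or.inl (by omega))).le, zero_add]
  · rw [if_neg (by omega), if_neg (by omega)]
    apply coord_of' (m := n + kk χ)
    rw [act_inf, Aut.inf_apply, a2, b2, h, min_pr, zero_add, zero_add]
  · rw [if_neg (by omega), if_pos h]
    apply coord_of' (m := n + kk χ)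
    rw [act_inf, Aut.inf_apply, a2, b2, min_eq_right
      (pr_lt_pr.2 (Or.inl (by omega))).le, zero_add]

/-! ### Automorphisms with given coordinates -/

/-- The map `-∞ ↦ -∞`, `x ↦ x + c`. -/
noncomputable def addB (c : ℝ) : WithBot ℝ → WithBot ℝ := WithBot.map (· + c)

lemma addB_addB (c d : ℝ) (x : WithBot ℝ) : addB c (addB d x) = addB (d + c) x := by
  induction x using WithBot.recBotCoe with
  | bot => rfl
  | coe x =>
    show ((x + d + c : ℝ) : WithBot ℝ) = ((x + (d + c) : ℝ) : WithBot ℝ)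
    rw [add_assoc]

lemma addB_zero (x : WithBot ℝ) : addB 0 x = x := by
  induction x using WithBot.recBotCoe with
  | bot => rfl
  | coe x => simp [addB]

lemma addB_le (c : ℝ) (x y : WithBot ℝ) : addB c x ≤ addB c y ↔ x ≤ y := by
  induction x using WithBot.recBotCoe with
  | bot => simp [addB]
  | coe x =>
    induction y using WithBot.recBotCoe with
    | bot => simp [addB]
    | coe y =>
      show ((x + c : ℝ) : WithBot ℝ) ≤ ((y + c : ℝ) : WithBot ℝ) ↔ _
      rw [WithBot.coe_le_coe, WithBot.coe_le_coe]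
      simp

/-- The automorphism of `BB` with coordinates `k`, `r`. -/
noncomputable def shiftB (k : ℤ) (r : ℤ → ℝ) : Aut BB where
  toFun p := toLex ((ofLex p).1 + k, addB (r (ofLex p).1) (ofLex p).2)
  invFun p := toLex ((ofLex p).1 - k, addB (-r ((ofLex p).1 - k)) (ofLex p).2)
  left_inv p := by
    simp [addB_addB, addB_zero]
  right_inv p := by
    simp [addB_addB, addB_zero]
  map_rel_iff' := by
    intro a b
    obtain ⟨⟨n, x⟩, rfl⟩ := toLex.surjective a
    obtain ⟨⟨m, y⟩, rfl⟩ := toLex.surjective b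
    simp only [Equiv.coe_fn_mk, Prod.Lex.toLex_le_toLex, ofLex_toLex, add_lt_add_iff_right,
      add_left_inj]
    constructor
    · rintro (h | ⟨rfl, h⟩)
      · exact Or.inl h
      · exact Or.inr ⟨rfl, (addB_le _ _ _).1 h⟩
    · rintro (h | ⟨rfl, h⟩)
      · exact Or.inl h
      · exact Or.inr ⟨rfl, (addB_le _ _ _).2 h⟩

lemma shiftB_pb (k : ℤ) (r : ℤ → ℝ) (n : ℤ) : shiftB k r (pb n) = pb (n + k) := rfl
lemma shiftB_pr (k : ℤ) (r : ℤ → ℝ) (n : ℤ) (x : ℝ) :
    shiftB k r (pr n x) = pr (n + k) (x + r n) := rfl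

lemma qq_shiftB (k : ℤ) (r : ℤ → ℝ) (hr : ∀ n, r n ∈ R) (p : BB) :
    qq R (shiftB k r p) = qq R p := by
  rcases BB_cases p with ⟨n, rfl⟩ | ⟨n, x, rfl⟩
  · rw [shiftB_pb, qq_pb, qq_pb]
  · rw [shiftB_pr, qq_pr, qq_pr]
    congr 2
    rw [QuotientAddGroup.eq]
    have := R.neg_mem (hr n)
    have h2 : -(x + r n) + x = -r n := by ring
    rwa [h2]

/-- The automorphism with coordinates `k`, `r`. -/
noncomputable def mkA (k : ℤ) (r : ℤ → ℝ) (hr : ∀ n, r n ∈ R) : Aut (Om R) :=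
  ofB (q := qq R) (shiftB k r) (qq_shiftB k r hr)

lemma act_mkA (k : ℤ) (r : ℤ → ℝ) (hr : ∀ n, r n ∈ R) : act (mkA k r hr) = shiftB k r :=
  toB_ofB (q := qq R) _ _ _

lemma kk_mkA (k : ℤ) (r : ℤ → ℝ) (hr : ∀ n, r n ∈ R) : kk (mkA k r hr) = k := by
  apply coord_of
  rw [act_mkA, shiftB_pb, zero_add]

lemma rr_mkA (k : ℤ) (r : ℤ → ℝ) (hr : ∀ n, r n ∈ R) (n : ℤ) : rr (mkA k r hr) n = r n := by
  apply coord_of' (m := n + k)
  rw [act_mkA, shiftB_pr, zero_add]

end Pool.Agent.H60.QV
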