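import Pool.Agent.H60.QV.Chain

/-! # `ℓ`-groups with coordinates `(k, r : ℤ → ℝ)` and their identities -/

set_option autoImplicit false

namespace Pool.Agent.H60.QV

/-- The multiplication of coordinates is that of a wreath product of a group of rational numbers
(which contains `ℤ`) and `ℤ`. -/
structure Coord (G : Type) [Group G] [Lattice G] where
  K : G → ℤ
  ρ : G → ℤ → ℝ
  ext : ∀ {a b : G}, K a = K b → (∀ n, ρ a n = ρ b n) → a = b
  K_mul : ∀ a b, K (a * b) = K a + K b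
  ρ_mul : ∀ a b n, ρ (a * b) n = ρ b n + ρ a (n + K b)
  K_sup : ∀ a b, K (a ⊔ b) = max (K a) (K b)
  K_inf : ∀ a b, K (a ⊓ b) = min (K a) (K b)
  ρ_sup : ∀ a b n, ρ (a ⊔ b) n = if K a < K b then ρ b n else if K b < K a then ρ a n
      else max (ρ a n) (ρ b n)
  ρ_inf : ∀ a b n, ρ (a ⊓ b) n = if K a < K b then ρ a n else if K b < K a then ρ b n
      else min (ρ a n) (ρ b n)
  int : ∀ (k : ℤ) (r : ℤ → ℤ), ∃ a, K a = k ∧ ∀ n, ρ a n = r n
  rat : ∀ a n, ∃ d : ℕ, 0 < d ∧ ∃ z : ℤ, d * ρ a n = z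

variable {G G' : Type} [Group G] [Lattice G] [Group G'] [Lattice G']

namespace Coord

lemma K_one (C : Coord G) : C.K 1 = 0 := by
  have := C.K_mul 1 1
  rw [mul_one] at this
  linarith

lemma ρ_one (C : Coord G) (n : ℤ) : C.ρ 1 n = 0 := by
  have := C.ρ_mul 1 1 n
  rw [mul_one, C.K_one, add_zero] at this
  linarith

lemma K_inv (C : Coord G) (a : G) : C.K a⁻¹ = -C.K a := by
  have := C.K_mul a⁻¹ a
  rw [inv_mul_cancel, C.K_one] at this
  linarith

lemma ρ_inv (C : Coord G) (a : G) (n : ℤ) : C.ρ a⁻¹ n = -C.ρ a (n - C.K a) := by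
  have := C.ρ_mul a a⁻¹ n
  rw [mul_inv_cancel, C.ρ_one, C.K_inv, ← sub_eq_add_neg] at this
  linarith

lemma K_pow (C : Coord G) (a : G) (m : ℕ) : C.K (a ^ m) = m * C.K a := by
  induction m with
  | zero => simp [C.K_one]
  | succ m ih => rw [pow_succ, C.K_mul, ih]; push_cast; ring

lemma ρ_pow (C : Coord G) {a : G} (ha : C.K a = 0) (m : ℕ) (n : ℤ) :
    C.ρ (a ^ m) n = m * C.ρ a n := by
  induction m with
  | zero => simp [C.ρ_one]
  | succ m ih => rw [pow_succ, C.ρ_mul, ha, add_zero, ih]; push_cast; ring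

/-- The value of a term at a place depends only on the values of the variables at finitely many
places, and it is compatible with scaling. -/
lemma local_term (C : Coord G) (C' : Coord G') (v : ℕ → G) (τ : Term) :
    ∀ n₀ : ℤ, ∃ F : Finset (ℕ × ℤ), ∀ (v' : ℕ → G') (N : ℝ), 0 < N →
      (∀ i, C'.K (v' i) = C.K (v i)) →
      (∀ p ∈ F, C'.ρ (v' p.1) p.2 = N * C.ρ (v p.1) p.2) →
      C'.K (τ.eval v') = C.K (τ.eval v) ∧
        C'.ρ (τ.eval v') n₀ = N * C.ρ (τ.eval v) n₀ := by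
  classical
  induction τ with
  | var i =>
    intro n₀
    exact ⟨{(i, n₀)}, fun v' N _ h1 h2 => ⟨h1 i, h2 (i, n₀) (Finset.mem_singleton_self _)⟩⟩
  | one =>
    intro n₀
    refine ⟨∅, fun v' N _ _ _ => ⟨?_, ?_⟩⟩
    · simp only [Term.eval, C.K_one, C'.K_one]
    · simp only [Term.eval, C.ρ_one, C'.ρ_one, mul_zero]
  | mul a b iha ihb =>
    intro n₀
    obtain ⟨Fb, hb⟩ := ihb n₀
    obtain ⟨Fa, ha⟩ := iha (n₀ + C.K (b.eval v))
    refine ⟨Fa ∪ Fb, fun v' N hN h1 h2 => ?_⟩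
    obtain ⟨a1, a2⟩ := ha v' N hN h1 fun p hp => h2 p (Finset.mem_union_left _ hp)
    obtain ⟨b1, b2⟩ := hb v' N hN h1 fun p hp => h2 p (Finset.mem_union_right _ hp)
    simp only [Term.eval]
    rw [C.K_mul, C'.K_mul, C.ρ_mul, C'.ρ_mul, a1, b1, a2, b2]
    exact ⟨rfl, by ring⟩
  | inv a iha =>
    intro n₀
    obtain ⟨Fa, ha⟩ := iha (n₀ - C.K (a.eval v))
    refine ⟨Fa, fun v' N hN h1 h2 => ?_⟩
    obtain ⟨a1, a2⟩ := ha v' N hN h1 h2
    simp only [Term.eval]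
    rw [C.K_inv, C'.K_inv, C.ρ_inv, C'.ρ_inv, a1, a2]
    exact ⟨rfl, by ring⟩
  | inf a b iha ihb =>
    intro n₀
    obtain ⟨Fb, hb⟩ := ihb n₀
    obtain ⟨Fa, ha⟩ := iha n₀
    refine ⟨Fa ∪ Fb, fun v' N hN h1 h2 => ?_⟩
    obtain ⟨a1, a2⟩ := ha v' N hN h1 fun p hp => h2 p (Finset.mem_union_left _ hp)
    obtain ⟨b1, b2⟩ := hb v' N hN h1 fun p hp => h2 p (Finset.mem_union_right _ hp)
    simp only [Term.eval]
    rw [C.K_inf, C'.K_inf, C.ρ_inf, C'.ρ_inf, a1, b1, a2, b2]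
    refine ⟨rfl, ?_⟩
    split_ifs
    · rfl
    · rfl
    · rw [mul_min_of_nonneg _ _ hN.le]
  | sup a b iha ihb =>
    intro n₀
    obtain ⟨Fb, hb⟩ := ihb n₀
    obtain ⟨Fa, ha⟩ := iha n₀
    refine ⟨Fa ∪ Fb, fun v' N hN h1 h2 => ?_⟩
    obtain ⟨a1, a2⟩ := ha v' N hN h1 fun p hp => h2 p (Finset.mem_union_left _ hp)
    obtain ⟨b1, b2⟩ := hb v' N hN h1 fun p hp => h2 p (Finset.mem_union_right _ hp)
    simp only [Term.eval]
    rw [C.K_sup, C'.K_sup, C.ρ_sup, C'.ρ_sup, a1, b1, a2, b2]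
    refine ⟨rfl, ?_⟩
    split_ifs
    · rfl
    · rfl
    · rw [mul_max_of_nonneg _ _ hN.le]

lemma common_denom (f : ℕ × ℤ → ℝ) (h : ∀ p, ∃ d : ℕ, 0 < d ∧ ∃ z : ℤ, d * f p = z)
    (F : Finset (ℕ × ℤ)) : ∃ N : ℕ, 0 < N ∧ ∀ p ∈ F, ∃ z : ℤ, N * f p = z := by
  classical
  induction F using Finset.induction_on with
  | empty => exact ⟨1, one_pos, by simp⟩
  | insert p F _ ih =>
    obtain ⟨N, hN, h1⟩ := ih
    obtain ⟨d, hd, z, hz⟩ := h p
    refine ⟨N * d, Nat.mul_pos hN hd, fun p' hp' => ?_⟩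
    rcases Finset.mem_insert.1 hp' with rfl | hp'
    · refine ⟨N * z, ?_⟩
      push_cast
      rw [← hz]
      ring
    · obtain ⟨z', hz'⟩ := h1 p' hp'
      refine ⟨d * z', ?_⟩
      push_cast
      rw [← hz']
      ring

lemma id_sub (C : Coord G) (C' : Coord G') : idTheory G' ⊆ idTheory G := by
  classical
  intro e he v _
  have key : ∀ n₀, C.K (e.1.eval v) = C.K (e.2.eval v) ∧
      C.ρ (e.1.eval v) n₀ = C.ρ (e.2.eval v) n₀ := by
    intro n₀
    obtain ⟨F₁, h₁⟩ := local_term C C' v e.1 n₀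
    obtain ⟨F₂, h₂⟩ := local_term C C' v e.2 n₀
    obtain ⟨N, hN, hz⟩ := common_denom (fun p => C.ρ (v p.1) p.2) (fun p => C.rat _ _) (F₁ ∪ F₂)
    have hz' : ∀ p : ℕ × ℤ, ∃ z : ℤ, p ∈ F₁ ∪ F₂ → N * C.ρ (v p.1) p.2 = z := by
      intro p
      by_cases hp : p ∈ F₁ ∪ F₂
      · obtain ⟨z, hz⟩ := hz p hp
        exact ⟨z, fun _ => hz⟩
      · exact ⟨0, fun h => absurd h hp⟩
    choose z hz'' using hz'
    choose v' hv1 hv2 using fun i => C'.int (C.K (v i)) (fun n => z (i, n))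
    have hN' : (0 : ℝ) < N := by exact_mod_cast hN
    obtain ⟨a1, a2⟩ := h₁ v' N hN' hv1 fun p hp => by
      rw [hv2, hz'' p (Finset.mem_union_left _ hp)]
    obtain ⟨b1, b2⟩ := h₂ v' N hN' hv1 fun p hp => by
      rw [hv2, hz'' p (Finset.mem_union_right _ hp)]
    have h3 : e.1.eval v' = e.2.eval v' := he v' (by simp)
    rw [h3] at a1 a2
    refine ⟨a1.symm.trans b1, ?_⟩
    have := a2.symm.trans b2
    exact mul_left_cancel₀ hN'.ne' this
  exact C.ext (key 0).1 fun n => (key n).2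

lemma id_eq (C : Coord G) (C' : Coord G') : idTheory G = idTheory G' :=
  Set.Subset.antisymm (id_sub C' C) (id_sub C C')

/-- The conjugate by an arbitrary element. -/
lemma conj (C : Coord G) {x : G} (hx : C.K x = 0) (y : G) (n : ℤ) :
    C.K (y⁻¹ * x * y) = 0 ∧ C.ρ (y⁻¹ * x * y) n = C.ρ x (n + C.K y) := by
  constructor
  · rw [C.K_mul, C.K_mul, C.K_inv, hx]
    ring
  · rw [C.ρ_mul, C.ρ_mul, C.ρ_inv, hx]
    have : n + C.K y + 0 - C.K y = n := by ring
    rw [this]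
    ring

end Coord

/-- The power of a term. -/
def Term.pw (t : Term) : ℕ → Term
  | 0 => .one
  | n + 1 => .mul (t.pw n) t

lemma Term.eval_pw (v : ℕ → G) (t : Term) (n : ℕ) : (t.pw n).eval v = t.eval v ^ n := by
  induction n with
  | zero => simp [Term.pw, Term.eval]
  | succ n ih => rw [Term.pw, Term.eval, ih, pow_succ]

/-- The quasi-identity `(y⁻¹ x y)^p = x → x = 1`. -/
def bs (p : ℕ) : QId :=
  ([(Term.pw (.mul (.mul (.inv (.var 1)) (.var 0)) (.var 1)) p, .var 0)], (.var 0, .one))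

lemma sat_bs (G : Type) [Group G] [Lattice G] (p : ℕ) :
    Sat G (bs p) ↔ ∀ x y : G, (y⁻¹ * x * y) ^ p = x → x = 1 := by
  constructor
  · intro h x y hxy
    have := h (fun i => if i = 0 then x else y) (by
      intro e he
      simp only [bs, List.mem_singleton] at he
      subst he
      simp only [Term.eval_pw, Term.eval]
      simpa using hxy)
    simpa [bs, Term.eval] using this
  · intro h v hv
    have := hv _ (List.mem_singleton_self _)
    simp only [Term.eval_pw, Term.eval] at this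
    exact h _ _ this

end Pool.Agent.H60.QV
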