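import Pool.Agent.H60.QV.Defs

/-! # Chains decorated with well-ordered chains, and their automorphisms -/

set_option autoImplicit false
set_option linter.unusedSectionVars false

namespace Pool.Agent.H60.QV

variable {B W : Type} [LinearOrder B] [LinearOrder W]

/-- The chain obtained from the chain `B` by replacing each `b` with the chain
`{c : W | c ≤ q b}`. -/
def Deco (q : B → W) : Type := {p : B ×ₗ W // (ofLex p).2 ≤ q (ofLex p).1}

instance (q : B → W) : LinearOrder (Deco q) :=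
  inferInstanceAs (LinearOrder {p : B ×ₗ W // (ofLex p).2 ≤ q (ofLex p).1})

variable {q : B → W}

/-- The first coordinate. -/
def Deco.b (x : Deco q) : B := (ofLex x.1).1
/-- The second coordinate. -/
def Deco.c (x : Deco q) : W := (ofLex x.1).2
/-- The point with the given coordinates. -/
def Deco.mk (b : B) (c : W) (h : c ≤ q b) : Deco q := ⟨toLex (b, c), h⟩

@[simp] lemma Deco.mk_b (b : B) (c : W) (h : c ≤ q b) : (Deco.mk b c h).b = b := rfl
@[simp] lemma Deco.mk_c (b : B) (c : W) (h : c ≤ q b) : (Deco.mk b c h).c = c := rfl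
lemma Deco.c_le (x : Deco q) : x.c ≤ q x.b := x.2

lemma Deco.ext {x y : Deco q} (h : x.b = y.b) (h' : x.c = y.c) : x = y :=
  Subtype.ext (congrArg toLex (Prod.ext h h'))

lemma Deco.lt_iff (x y : Deco q) : x < y ↔ x.b < y.b ∨ x.b = y.b ∧ x.c < y.c :=
  Prod.Lex.lt_iff (x := x.1) (y := y.1)

lemma Deco.le_iff (x y : Deco q) : x ≤ y ↔ x.b < y.b ∨ x.b = y.b ∧ x.c ≤ y.c :=
  Prod.Lex.le_iff (x := x.1) (y := y.1)

lemma Deco.b_mono {x y : Deco q} (h : x ≤ y) : x.b ≤ y.b := by
  rcases (Deco.le_iff x y).1 h with h | h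
  · exact h.le
  · exact h.1.le

/-- No interval of `B` with at least two points is well-ordered. -/
def Down (B : Type) [LinearOrder B] : Prop :=
  ∀ a b : B, a < b → ∃ s : ℕ → B, StrictAnti s ∧ ∀ k, a ≤ s k ∧ s k ≤ b

variable [WellFoundedLT W]

lemma Deco.b_lt_iff (hB : Down B) {x y : Deco q} (hxy : x ≤ y) :
    x.b < y.b ↔ ∃ s : ℕ → Deco q, StrictAnti s ∧ ∀ k, x ≤ s k ∧ s k ≤ y := by
  constructor
  · intro h
    obtain ⟨s, hs, h1⟩ := hB _ _ h
    refine ⟨fun k => Deco.mk (s (k + 1)) (q (s (k + 1))) le_rfl, fun i j hij => ?_, fun k => ?_⟩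
    · exact (Deco.lt_iff _ _).2 (Or.inl (hs (by omega)))
    · constructor
      · rw [Deco.le_iff]
        rcases (h1 (k + 1)).1.lt_or_eq with h2 | h2
        · exact Or.inl h2
        · refine Or.inr ⟨h2, ?_⟩
          have := x.c_le
          rw [h2] at this
          exact this
      · rw [Deco.le_iff]
        left
        exact lt_of_lt_of_le (hs (Nat.succ_pos k)) (h1 0).2
  · rintro ⟨s, hs, h1⟩
    by_contra hc
    have hb : x.b = y.b := le_antisymm (Deco.b_mono hxy) (not_lt.1 hc)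
    have h2 : ∀ k, (s k).b = x.b := fun k =>
      le_antisymm ((Deco.b_mono (h1 k).2).trans hb.ge) (Deco.b_mono (h1 k).1)
    have h3 : StrictAnti fun k => (s k).c := by
      intro i j hij
      rcases (Deco.lt_iff _ _).1 (hs hij) with h4 | h4
      · rw [h2, h2] at h4
        exact absurd h4 (lt_irrefl _)
      · exact h4.2
    exact WellFounded.not_rel_apply_succ (r := ((· < ·) : W → W → Prop)) (fun k => (s k).c) |>.elim
      fun k hk => hk (h3 (Nat.lt_succ_self k))

lemma Deco.b_lt_of (hB : Down B) (φ : Aut (Deco q)) {x y : Deco q} (h : x.b < y.b) :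
    (φ x).b < (φ y).b := by
  have hxy : x ≤ y := (Deco.le_iff _ _).2 (Or.inl h)
  obtain ⟨s, hs, h1⟩ := (Deco.b_lt_iff hB hxy).1 h
  exact (Deco.b_lt_iff hB (φ.le_iff.2 hxy)).2
    ⟨fun k => φ (s k), fun i j hij => φ.lt_iff.2 (hs hij),
      fun k => ⟨φ.le_iff.2 (h1 k).1, φ.le_iff.2 (h1 k).2⟩⟩

lemma Deco.b_eq_of (hB : Down B) (φ : Aut (Deco q)) {x y : Deco q} (h : x.b = y.b) :
    (φ x).b = (φ y).b := by
  rcases lt_trichotomy (φ x).b (φ y).b with h1 | h1 | h1
  · have := Deco.b_lt_of hB φ⁻¹ h1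
    simp only [Aut.inv_apply_self] at this
    exact absurd h this.ne
  · exact h1
  · have := Deco.b_lt_of hB φ⁻¹ h1
    simp only [Aut.inv_apply_self] at this
    exact absurd h this.ne'

lemma Deco.c_le_apply (hB : Down B) (φ : Aut (Deco q)) (x : Deco q) : x.c ≤ (φ x).c := by
  suffices H : ∀ c : W, ∀ x : Deco q, x.c = c → x.c ≤ (φ x).c from H _ x rfl
  intro c
  induction c using WellFoundedLT.induction with
  | _ c ih =>
    intro x hx
    by_contra hc
    push Not at hc
    have h1 : (φ x).c ≤ q x.b := hc.le.trans x.c_le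
    let y : Deco q := Deco.mk x.b (φ x).c h1
    have hy : y < x := (Deco.lt_iff _ _).2 (Or.inr ⟨rfl, hc⟩)
    have h2 := ih (φ x).c (hx ▸ hc) y rfl
    have h3 := φ.lt_iff.2 hy
    rcases (Deco.lt_iff _ _).1 h3 with h4 | h4
    · exact absurd (Deco.b_eq_of hB φ (x := y) (y := x) rfl) h4.ne
    · exact absurd (lt_of_le_of_lt h2 h4.2) (lt_irrefl _)

/-- Automorphisms keep the second coordinate. -/
lemma Deco.c_apply (hB : Down B) (φ : Aut (Deco q)) (x : Deco q) : (φ x).c = x.c := by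
  refine le_antisymm ?_ (Deco.c_le_apply hB φ x)
  have := Deco.c_le_apply hB φ⁻¹ (φ x)
  simpa using this

/-- The top point over `b`. -/
def Deco.top (q : B → W) (b : B) : Deco q := Deco.mk b (q b) le_rfl

@[simp] lemma Deco.top_b (b : B) : (Deco.top q b).b = b := rfl
@[simp] lemma Deco.top_c (b : B) : (Deco.top q b).c = q b := rfl

lemma Deco.q_apply (hB : Down B) (φ : Aut (Deco q)) (x : Deco q) : q (φ x).b = q x.b := by
  have key : ∀ (φ : Aut (Deco q)) (x : Deco q), q x.b ≤ q (φ x).b := by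
    intro φ x
    have h1 : (φ (Deco.top q x.b)).b = (φ x).b := Deco.b_eq_of hB φ rfl
    have h2 := (φ (Deco.top q x.b)).c_le
    rw [h1, Deco.c_apply hB] at h2
    exact h2
  refine le_antisymm ?_ (key φ x)
  have := key φ⁻¹ (φ x)
  simpa using this

/-- The automorphism of `B` induced by an automorphism of the decorated chain. -/
def toB (hB : Down B) (φ : Aut (Deco q)) : Aut B where
  toFun b := (φ (Deco.top q b)).b
  invFun b := (φ⁻¹ (Deco.top q b)).b
  left_inv b := by
    have : (φ⁻¹ (Deco.top q (φ (Deco.top q b)).b)).b = (φ⁻¹ (φ (Deco.top q b))).b :=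
      Deco.b_eq_of hB _ rfl
    simpa using this
  right_inv b := by
    have : (φ (Deco.top q (φ⁻¹ (Deco.top q b)).b)).b = (φ (φ⁻¹ (Deco.top q b))).b :=
      Deco.b_eq_of hB _ rfl
    simpa using this
  map_rel_iff' := by
    intro a b
    show (φ (Deco.top q a)).b ≤ (φ (Deco.top q b)).b ↔ a ≤ b
    constructor
    · intro h
      by_contra hc
      push Not at hc
      exact absurd (Deco.b_lt_of hB φ (x := Deco.top q b) (y := Deco.top q a) hc) (not_lt.2 h)
    · intro h
      rcases h.lt_or_eq with h | rfl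
      · exact (Deco.b_lt_of hB φ (x := Deco.top q a) (y := Deco.top q b) h).le
      · exact le_rfl

lemma toB_b (hB : Down B) (φ : Aut (Deco q)) (x : Deco q) : toB hB φ x.b = (φ x).b :=
  Deco.b_eq_of hB φ rfl

lemma toB_eq (hB : Down B) (φ : Aut (Deco q)) (b : B) : toB hB φ b = (φ (Deco.top q b)).b := rfl

lemma q_toB (hB : Down B) (φ : Aut (Deco q)) (b : B) : q (toB hB φ b) = q b :=
  Deco.q_apply hB φ (Deco.top q b)

lemma toB_mul (hB : Down B) (φ χ : Aut (Deco q)) : toB hB (φ * χ) = toB hB φ * toB hB χ := by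
  ext b
  rw [Aut.mul_apply, toB_eq, Aut.mul_apply, toB_eq hB χ, toB_b]

lemma toB_one (hB : Down B) : toB hB (1 : Aut (Deco q)) = 1 := by
  ext b
  rfl

lemma toB_inv (hB : Down B) (φ : Aut (Deco q)) : toB hB φ⁻¹ = (toB hB φ)⁻¹ := by
  rw [eq_inv_iff_mul_eq_one, ← toB_mul, inv_mul_cancel, toB_one]

lemma Deco.max_b (x y : Deco q) : (max x y).b = max x.b y.b := by
  rcases le_total x y with h | h
  · rw [max_eq_right h, max_eq_right (Deco.b_mono h)]
  · rw [max_eq_left h, max_eq_left (Deco.b_mono h)]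

lemma Deco.min_b (x y : Deco q) : (min x y).b = min x.b y.b := by
  rcases le_total x y with h | h
  · rw [min_eq_left h, min_eq_left (Deco.b_mono h)]
  · rw [min_eq_right h, min_eq_right (Deco.b_mono h)]

lemma toB_sup (hB : Down B) (φ χ : Aut (Deco q)) : toB hB (φ ⊔ χ) = toB hB φ ⊔ toB hB χ := by
  ext b
  rw [Aut.sup_apply, toB_eq, Aut.sup_apply, Deco.max_b]
  rfl

lemma toB_inf (hB : Down B) (φ χ : Aut (Deco q)) : toB hB (φ ⊓ χ) = toB hB φ ⊓ toB hB χ := by
  ext b
  rw [Aut.inf_apply, toB_eq, Aut.inf_apply, Deco.min_b]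
  rfl

lemma toB_inj (hB : Down B) {φ χ : Aut (Deco q)} (h : toB hB φ = toB hB χ) : φ = χ := by
  ext x
  refine Deco.ext ?_ ?_
  · rw [← toB_b hB, ← toB_b hB, h]
  · rw [Deco.c_apply hB, Deco.c_apply hB]

omit [WellFoundedLT W] in
lemma inv_q {ψ : Aut B} (h : ∀ b, q (ψ b) = q b) (b : B) : q (ψ⁻¹ b) = q b := by
  have := h (ψ⁻¹ b)
  rw [Aut.apply_inv_self] at this
  exact this.symm

/-- An automorphism of `B` that keeps `q` acts on the decorated chain. -/
def ofB (ψ : Aut B) (h : ∀ b, q (ψ b) = q b) : Aut (Deco q) where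
  toFun x := Deco.mk (ψ x.b) x.c (by rw [h]; exact x.c_le)
  invFun x := Deco.mk (ψ⁻¹ x.b) x.c (by rw [inv_q h]; exact x.c_le)
  left_inv x := Deco.ext (by simp) rfl
  right_inv x := Deco.ext (by simp) rfl
  map_rel_iff' := by
    intro x y
    show Deco.mk (ψ x.b) x.c _ ≤ Deco.mk (ψ y.b) y.c _ ↔ x ≤ y
    rw [Deco.le_iff, Deco.le_iff]
    simp only [Deco.mk_b, Deco.mk_c, ψ.lt_iff, ψ.inj]

lemma toB_ofB (hB : Down B) (ψ : Aut B) (h : ∀ b, q (ψ b) = q b) : toB hB (ofB ψ h) = ψ := by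
  ext b
  rfl

end Pool.Agent.H60.QV
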