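import Mathlib

/-!
# Lattice-ordered groups of automorphisms of chains, identities and quasi-identities

* `Aut Ω`: the group of order automorphisms of a chain `Ω`, ordered pointwise.
* `Term`: terms in the language `(·, ⁻¹, 1, ∧, ∨)`, `Term.eval`: their values.
* `Sat G q`: the quasi-identity `q` holds in `G`; `quasiTheory G`, `idTheory G`: the sets of all
  quasi-identities and of all identities that hold in `G`.
-/

set_option autoImplicit false

namespace Pool.Agent.H60.QV

/-- The group of all order automorphisms of `Ω` (composition of maps). -/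
def Aut (Ω : Type*) [LinearOrder Ω] : Type _ := Ω ≃o Ω

section
variable {Ω : Type*} [LinearOrder Ω]

instance : Group (Aut Ω) := inferInstanceAs (Group (Ω ≃o Ω))

instance : FunLike (Aut Ω) Ω Ω := inferInstanceAs (FunLike (Ω ≃o Ω) Ω Ω)

/-- The underlying order isomorphism. -/
def Aut.iso (f : Aut Ω) : Ω ≃o Ω := f

@[simp] lemma Aut.iso_apply (f : Aut Ω) (x : Ω) : f.iso x = f x := rfl

@[ext] lemma Aut.ext {f g : Aut Ω} (h : ∀ x, f x = g x) : f = g :=
  RelIso.ext h

@[simp] lemma Aut.mul_apply (f g : Aut Ω) (x : Ω) : (f * g) x = f (g x) := rfl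
@[simp] lemma Aut.one_apply (x : Ω) : (1 : Aut Ω) x = x := rfl
@[simp] lemma Aut.inv_apply_self (f : Aut Ω) (x : Ω) : f⁻¹ (f x) = x := f.iso.symm_apply_apply x
@[simp] lemma Aut.apply_inv_self (f : Aut Ω) (x : Ω) : f (f⁻¹ x) = x := f.iso.apply_symm_apply x
lemma Aut.strictMono (f : Aut Ω) : StrictMono f := f.iso.strictMono
lemma Aut.lt_iff (f : Aut Ω) {x y : Ω} : f x < f y ↔ x < y := f.iso.lt_iff_lt
lemma Aut.le_iff (f : Aut Ω) {x y : Ω} : f x ≤ f y ↔ x ≤ y := f.iso.le_iff_le
lemma Aut.inj (f : Aut Ω) {x y : Ω} : f x = f y ↔ x = y := f.iso.injective.eq_iff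

/-- The pointwise maximum of two automorphisms. -/
def Aut.supr (f g : Aut Ω) : Aut Ω where
  toFun x := max (f x) (g x)
  invFun y := min (f⁻¹ y) (g⁻¹ y)
  left_inv x := by
    rcases le_total (f x) (g x) with h | h
    · have h1 : x ≤ f⁻¹ (g x) := by rw [← f.le_iff]; simpa using h
      simp [max_eq_right h, h1]
    · have h1 : x ≤ g⁻¹ (f x) := by rw [← g.le_iff]; simpa using h
      simp [max_eq_left h, h1]
  right_inv y := by
    rcases le_total (f⁻¹ y) (g⁻¹ y) with h | h
    · have h1 : g (f⁻¹ y) ≤ y := by
        have := g.le_iff.2 h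
        simpa using this
      simp [min_eq_left h, h1]
    · have h1 : f (g⁻¹ y) ≤ y := by
        have := f.le_iff.2 h
        simpa using this
      simp [min_eq_right h, h1]
  map_rel_iff' := by
    intro a b
    show max (f a) (g a) ≤ max (f b) (g b) ↔ a ≤ b
    constructor
    · intro h
      by_contra hc
      push Not at hc
      have h1 := f.lt_iff.2 hc
      have h2 := g.lt_iff.2 hc
      exact absurd h (not_le.2 (max_lt_max h1 h2))
    · intro h
      exact max_le_max (f.le_iff.2 h) (g.le_iff.2 h)

/-- The pointwise minimum of two automorphisms. -/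
def Aut.infi (f g : Aut Ω) : Aut Ω where
  toFun x := min (f x) (g x)
  invFun y := max (f⁻¹ y) (g⁻¹ y)
  left_inv x := by
    rcases le_total (f x) (g x) with h | h
    · have h1 : g⁻¹ (f x) ≤ x := by rw [← g.le_iff]; simpa using h
      simp [min_eq_left h, h1]
    · have h1 : f⁻¹ (g x) ≤ x := by rw [← f.le_iff]; simpa using h
      simp [min_eq_right h, h1]
  right_inv y := by
    rcases le_total (f⁻¹ y) (g⁻¹ y) with h | h
    · have h1 : y ≤ f (g⁻¹ y) := by
        have := f.le_iff.2 h
        simpa using this
      simp [max_eq_right h, h1]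
    · have h1 : y ≤ g (f⁻¹ y) := by
        have := g.le_iff.2 h
        simpa using this
      simp [max_eq_left h, h1]
  map_rel_iff' := by
    intro a b
    show min (f a) (g a) ≤ min (f b) (g b) ↔ a ≤ b
    constructor
    · intro h
      by_contra hc
      push Not at hc
      have h1 := f.lt_iff.2 hc
      have h2 := g.lt_iff.2 hc
      exact absurd h (not_le.2 (min_lt_min h1 h2))
    · intro h
      exact min_le_min (f.le_iff.2 h) (g.le_iff.2 h)

/-- The pointwise order, with pointwise maximum and minimum. -/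
instance : Lattice (Aut Ω) where
  le f g := ∀ x, f x ≤ g x
  le_refl _ _ := le_rfl
  le_trans _ _ _ h h' x := (h x).trans (h' x)
  le_antisymm f g h h' := Aut.ext fun x => (h x).antisymm (h' x)
  sup := Aut.supr
  inf := Aut.infi
  le_sup_left f g x := le_max_left _ _
  le_sup_right f g x := le_max_right _ _
  sup_le f g k h h' x := max_le (h x) (h' x)
  inf_le_left f g x := min_le_left _ _
  inf_le_right f g x := min_le_right _ _
  le_inf f g k h h' x := le_min (h x) (h' x)

lemma Aut.le_def (f g : Aut Ω) : f ≤ g ↔ ∀ x, f x ≤ g x := Iff.rfl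
@[simp] lemma Aut.sup_apply (f g : Aut Ω) (x : Ω) : (f ⊔ g) x = max (f x) (g x) := rfl
@[simp] lemma Aut.inf_apply (f g : Aut Ω) (x : Ω) : (f ⊓ g) x = min (f x) (g x) := rfl

instance : MulLeftMono (Aut Ω) := ⟨fun f _ _ h x => f.le_iff.2 (h x)⟩
instance : MulRightMono (Aut Ω) := ⟨fun f _ _ h x => h (f x)⟩

end

/-- Terms in the language of `ℓ`-groups, in the variables `x₀, x₁, x₂, …`. -/
inductive Term : Type
  | var : ℕ → Term
  | one : Term
  | mul : Term → Term → Term
  | inv : Term → Term
  | inf : Term → Term → Term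
  | sup : Term → Term → Term
  deriving Countable

/-- The value of a term. -/
def Term.eval {G : Type*} [Group G] [Lattice G] (v : ℕ → G) : Term → G
  | .var i => v i
  | .one => 1
  | .mul a b => a.eval v * b.eval v
  | .inv a => (a.eval v)⁻¹
  | .inf a b => a.eval v ⊓ b.eval v
  | .sup a b => a.eval v ⊔ b.eval v

/-- A quasi-identity `u₁ = v₁ ∧ … ∧ u_k = v_k → u = v` is the list of the pairs `(u_i, v_i)`
together with the pair `(u, v)`; for `k = 0` it is an identity. -/
abbrev QId : Type := List (Term × Term) × (Term × Term)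

/-- The quasi-identity `q` holds in `G`. -/
def Sat (G : Type*) [Group G] [Lattice G] (q : QId) : Prop :=
  ∀ v : ℕ → G, (∀ e ∈ q.1, e.1.eval v = e.2.eval v) → q.2.1.eval v = q.2.2.eval v

/-- The quasi-identities of `G`; they define the quasi-variety generated by `G`. -/
def quasiTheory (G : Type*) [Group G] [Lattice G] : Set QId := {q | Sat G q}

/-- The identities of `G`; they define the variety generated by `G`. -/
def idTheory (G : Type*) [Group G] [Lattice G] : Set (Term × Term) := {e | Sat G ([], e)}

end Pool.Agent.H60.QV
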