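import Pool.Agent.H60.QV.ZStep

/-! # Continuum many quasi-varieties for every solvable class -/

set_option autoImplicit false

namespace Pool.Agent.H60.QV

open Cardinal

/-- The iterated lexicographic products of `ℤ`, with their orders. -/
def Zc : ℕ → (X : Type) × LinearOrder X
  | 0 => ⟨ℤ, inferInstance⟩
  | n + 1 => ⟨ℤ ×ₗ (Zc n).1, @Prod.Lex.instLinearOrder ℤ (Zc n).1 inferInstance (Zc n).2⟩

/-- The chain `Zn n` is the lexicographic product of `n + 1` copies of `ℤ`: `Zn 0 = ℤ` and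
`Zn (n + 1) = ℤ ×ₗ Zn n`. -/
def Zn (n : ℕ) : Type := (Zc n).1

instance instZn (n : ℕ) : LinearOrder (Zn n) := (Zc n).2

lemma rank_Zn : ∀ n, ZStep.Rank n (Zn n)
  | 0 => ZStep.rank_int
  | n + 1 => ZStep.rank_next (Z := Zn n) (rank_Zn n)

/-- A decorated chain. -/
structure Dat where
  B : Type
  W : Type
  lB : LinearOrder B
  lW : LinearOrder W
  wf : WellFoundedLT W
  q : B → W
  good : Step.Good B

attribute [instance] Dat.lB Dat.lW Dat.wf

/-- The next decorated chain. -/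
def Dat.next (D : Dat) : Dat where
  B := Step.Bp D.B
  W := WithTop D.W
  lB := inferInstance
  lW := inferInstance
  wf := inferInstance
  q := Step.qp D.q
  good := Step.good D.good

lemma good_BB : Step.Good BB where
  down := down_BB
  noMin p := by
    rcases BB_cases p with ⟨n, rfl⟩ | ⟨n, x, rfl⟩
    · exact ⟨pb (n - 1), pb_lt_pb.2 (by omega)⟩
    · exact ⟨pb (n - 1), pb_lt_pr.2 (by omega)⟩
  noMax p := by
    rcases BB_cases p with ⟨n, rfl⟩ | ⟨n, x, rfl⟩
    · exact ⟨pb (n + 1), pb_lt_pb.2 (by omega)⟩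
    · exact ⟨pb (n + 1), pr_lt_pb.2 (by omega)⟩
  nonempty := ⟨pb 0⟩

/-- The decorated chains whose groups are the iterated wreath products of `RS S` with copies
of `ℤ`. -/
noncomputable def dat (S : Set ℕ) : ℕ → Dat
  | 0 => ⟨BB, WithTop (WR (RS S)), inferInstance, inferInstance, inferInstance, qq (RS S), good_BB⟩
  | n + 1 => (dat S n).next

/-- The chain `Ch S n`. -/
def Ch (S : Set ℕ) (n : ℕ) : Type := Deco (dat S n).q

noncomputable instance instCh (S : Set ℕ) (n : ℕ) : LinearOrder (Ch S n) :=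
  inferInstanceAs (LinearOrder (Deco (dat S n).q))

/-- `Aut (Ch S (n + 1))` is the wreath product of `Aut (Ch S n)` and `ℤ`. -/
noncomputable def wrCh (S : Set ℕ) (n : ℕ) : WrCoord (Aut (Ch S (n + 1))) (Aut (Ch S n)) :=
  Step.wrCoord (q := (dat S n).q) (dat S n).good

/-- `Aut (Zn (n + 1))` is the wreath product of `Aut (Zn n)` and `ℤ`. -/
noncomputable def wrZn (n : ℕ) : WrCoord (Aut (Zn (n + 1))) (Aut (Zn n)) :=
  ZStep.wrCoord (Z := Zn n) (rank_Zn n)

lemma idTheory_Ch (S : Set ℕ) : ∀ n, idTheory (Aut (Ch S n)) = idTheory (Aut (Zn (n + 1)))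
  | 0 => idTheory_eq S
  | n + 1 => idTheory_wr (wrCh S n) (wrZn (n + 1)) (idTheory_Ch S n)

lemma rootless_Ch (S : Set ℕ) {p : ℕ} (hp : p.Prime) (hpS : p ∉ S) :
    ∀ n, Rootless (Aut (Ch S n)) p
  | 0 => rootless_Om S hp hpS
  | n + 1 => rootless_wr (wrCh S n) hp (rootless_Ch S hp hpS n)

lemma not_sat_Ch (S : Set ℕ) {p : ℕ} (hp : p.Prime) (hpS : p ∈ S) :
    ∀ n, ¬ Sat (Aut (Ch S n)) (bs p)
  | 0 => fun h => (sat_iff S hp).1 h hpS
  | n + 1 => not_sat_wr (wrCh S n) (not_sat_Ch S hp hpS n)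

lemma sat_Ch_iff (S : Set ℕ) (n : ℕ) {p : ℕ} (hp : p.Prime) :
    Sat (Aut (Ch S n)) (bs p) ↔ p ∉ S :=
  ⟨fun h hpS => not_sat_Ch S hp hpS n h, fun h => sat_bs_of_rootless (rootless_Ch S hp h n)⟩

/-- The quasi-identities of `Aut (Ch (ST T) n)`, for a set `T` of primes. -/
noncomputable def QTn (n : ℕ) (T : Set {p : ℕ // p.Prime}) : Set QId :=
  quasiTheory (Aut (Ch (ST T) n))

lemma mem_QTn (n : ℕ) (T : Set {p : ℕ // p.Prime}) (q : {p : ℕ // p.Prime}) :
    bs q ∈ QTn n T ↔ q ∉ T := by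
  have h1 : bs q ∈ QTn n T ↔ Sat (Aut (Ch (ST T) n)) (bs q) := Iff.rfl
  rw [h1, sat_Ch_iff _ _ q.2]
  apply not_congr
  constructor
  · rintro ⟨q', hq', h⟩
    rwa [← Subtype.ext h]
  · intro h
    exact ⟨q, h, rfl⟩

lemma QTn_inj (n : ℕ) : Function.Injective (QTn n) := by
  intro T T' h
  ext q
  have h1 := mem_QTn n T q
  rw [h, mem_QTn] at h1
  exact (not_iff_not.1 h1).symm

lemma card_eq_n (n : ℕ) :
    #{Q : Set QId | ∃ (Ω : Type) (_ : LinearOrder Ω),
      idTheory (Aut Ω) = idTheory (Aut (Zn (n + 1))) ∧ Q = quasiTheory (Aut Ω)} = 𝔠 := by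
  apply le_antisymm
  · refine (mk_subtype_le _).trans ?_
    rw [mk_set, ← two_power_aleph0]
    exact power_le_power_left two_ne_zero mk_le_aleph0
  · have h1 : #(Set {p : ℕ // p.Prime}) = 𝔠 := by
      have : Infinite {p : ℕ // p.Prime} := Nat.infinite_setOfPred_prime.to_subtype
      rw [mk_set, ← two_power_aleph0, Cardinal.mk_eq_aleph0]
    rw [← h1, ← mk_range_eq (QTn n) (QTn_inj n)]
    refine mk_le_mk_of_subset ?_
    rintro _ ⟨T, rfl⟩
    exact ⟨Ch (ST T) n, instCh _ _, idTheory_Ch _ n, rfl⟩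

end Pool.Agent.H60.QV
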