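import Pool.Agent.H60.QV.ZZ

/-! # Continuum many quasi-varieties generated by automorphism groups of chains -/

set_option autoImplicit false

namespace Pool.Agent.H60.QV

open Cardinal

/-- The rational numbers whose denominators have only prime factors in `S`. -/
def RS (S : Set ℕ) : AddSubgroup ℝ where
  carrier := {x | ∃ d : ℕ, 0 < d ∧ (∀ p, p.Prime → p ∣ d → p ∈ S) ∧ ∃ z : ℤ, (d : ℝ) * x = z}
  zero_mem' := ⟨1, one_pos, fun p hp h => absurd (Nat.dvd_one.1 h) hp.one_lt.ne', 0, by simp⟩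
  add_mem' := by
    rintro x y ⟨d, hd, h1, z, hz⟩ ⟨d', hd', h1', z', hz'⟩
    refine ⟨d * d', Nat.mul_pos hd hd', fun p hp h => ?_, d' * z + d * z', ?_⟩
    · rcases (Nat.Prime.dvd_mul hp).1 h with h | h
      · exact h1 p hp h
      · exact h1' p hp h
    · push_cast
      rw [← hz, ← hz']
      ring
  neg_mem' := by
    rintro x ⟨d, hd, h1, z, hz⟩
    refine ⟨d, hd, h1, -z, ?_⟩
    push_cast
    rw [← hz]
    ring

lemma int_mem (S : Set ℕ) (z : ℤ) : (z : ℝ) ∈ RS S :=
  ⟨1, one_pos, fun p hp h => absurd (Nat.dvd_one.1 h) hp.one_lt.ne', z, by simp⟩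

lemma countable_RS (S : Set ℕ) : (RS S : Set ℝ).Countable := by
  refine (Set.countable_range ((↑) : ℚ → ℝ)).mono ?_
  rintro x ⟨d, hd, _, z, hz⟩
  have hd' : (d : ℝ) ≠ 0 := by exact_mod_cast hd.ne'
  refine ⟨z / d, ?_⟩
  push_cast
  rw [← hz]
  field_simp

/-- The coordinates on `Aut (Om (RS S))`. -/
noncomputable def coordOm (S : Set ℕ) : Coord (Aut (Om (RS S))) where
  K := kk
  ρ := rr
  ext := fun h h' => aut_ext (countable_RS S) h h'
  K_mul := kk_mul (countable_RS S)
  ρ_mul := rr_mul (countable_RS S)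
  K_sup := kk_sup (countable_RS S)
  K_inf := kk_inf (countable_RS S)
  ρ_sup := rr_sup (countable_RS S)
  ρ_inf := rr_inf (countable_RS S)
  int k r := ⟨mkA k (fun n => (r n : ℝ)) (fun n => int_mem S _), kk_mkA _ _ _, rr_mkA _ _ _⟩
  rat a n := by
    obtain ⟨d, hd, _, z, hz⟩ := (act_spec (countable_RS S) a).1 n
    exact ⟨d, hd, z, hz⟩

lemma idTheory_eq (S : Set ℕ) : idTheory (Aut (Om (RS S))) = idTheory (Aut (ℤ ×ₗ ℤ)) :=
  Coord.id_eq (coordOm S) ZZ.coordZZ

lemma divisible {S : Set ℕ} {p : ℕ} (hp : p.Prime) (hpS : p ∉ S) {x : ℝ}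
    (h : ∀ j : ℕ, ∃ y ∈ RS S, x = (p : ℝ) ^ j * y) : x = 0 := by
  obtain ⟨y₀, ⟨d, hd, _, a, ha⟩, hy₀⟩ := h 0
  rw [pow_zero, one_mul] at hy₀
  rw [← hy₀] at ha
  have h1 : ∀ j : ℕ, ((p : ℤ) ^ j) ∣ a := by
    intro j
    obtain ⟨y, ⟨e, he, he', b, hb⟩, hy⟩ := h j
    have h2 : (a * e : ℤ) = p ^ j * (d * b) := by
      have : ((a * e : ℤ) : ℝ) = ((p ^ j * (d * b) : ℤ) : ℝ) := by
        push_cast
        rw [← ha, ← hb, hy]
        ring
      exact_mod_cast this
    have h3 : IsCoprime ((p : ℤ) ^ j) (e : ℤ) := by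
      apply IsCoprime.pow_left
      rw [Nat.isCoprime_iff_coprime]
      exact (Nat.Prime.coprime_iff_not_dvd hp).2 fun h4 => hpS (he' p hp h4)
    exact h3.dvd_of_dvd_mul_right ⟨_, h2⟩
  have ha0 : a = 0 := by
    by_contra hne
    have h2 := Int.le_of_dvd (abs_pos.2 hne) ((dvd_abs _ _).2 (h1 a.natAbs))
    have h3 : a.natAbs < p ^ a.natAbs := Nat.lt_pow_self hp.one_lt
    have h4 : ((a.natAbs : ℤ)) < (p : ℤ) ^ a.natAbs := by exact_mod_cast h3
    rw [Int.natCast_natAbs] at h4
    omega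
  have hd' : (d : ℝ) ≠ 0 := by exact_mod_cast hd.ne'
  rw [ha0] at ha
  have := mul_eq_zero.1 (ha.trans (by simp))
  rcases this with h | h
  · exact absurd h hd'
  · exact h

/-- The quasi-identity `(y⁻¹ x y)^p = x → x = 1` holds in `Aut (Om (RS S))` if and only if the
prime number `p` is not in `S`. -/
lemma sat_iff (S : Set ℕ) {p : ℕ} (hp : p.Prime) : Sat (Aut (Om (RS S))) (bs p) ↔ p ∉ S := by
  have hp0 : (p : ℝ) ≠ 0 := by exact_mod_cast hp.pos.ne'
  rw [sat_bs]
  constructor
  · intro h hpS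
    have hmem : ∀ n : ℤ, (p : ℝ) ^ (-n) ∈ RS S := by
      intro n
      rcases le_or_gt 0 n with hn | hn
      · obtain ⟨m, rfl⟩ := Int.eq_ofNat_of_zero_le hn
        refine ⟨p ^ m, pow_pos hp.pos m, fun q hq hqd => ?_, 1, ?_⟩
        · have := hq.dvd_of_dvd_pow hqd
          rw [(Nat.prime_dvd_prime_iff_eq hq hp).1 this]
          exact hpS
        · push_cast
          rw [zpow_neg, zpow_natCast]
          exact mul_inv_cancel₀ (pow_ne_zero m hp0)
      · obtain ⟨m, hm⟩ := Int.eq_ofNat_of_zero_le (show 0 ≤ -n by omega)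
        rw [hm]
        have : (p : ℝ) ^ (m : ℤ) = ((p ^ m : ℤ) : ℝ) := by push_cast; rw [zpow_natCast]
        rw [this]
        exact int_mem S _
    let x : Aut (Om (RS S)) := mkA 0 (fun n => (p : ℝ) ^ (-n)) hmem
    let y : Aut (Om (RS S)) := mkA 1 (fun _ => 0) (fun _ => (RS S).zero_mem)
    have hx : kk x = 0 := kk_mkA _ _ _
    have hy : kk y = 1 := kk_mkA _ _ _
    have hxr : ∀ n, rr x n = (p : ℝ) ^ (-n) := rr_mkA _ _ _
    have hc := fun n => (coordOm S).conj (x := x) hx y n
    have h1 : (y⁻¹ * x * y) ^ p = x := by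
      apply (coordOm S).ext
      · rw [(coordOm S).K_pow, (hc 0).1]
        show _ = kk x
        rw [hx]
        simp
      · intro n
        rw [(coordOm S).ρ_pow (hc 0).1, (hc n).2]
        show (p : ℝ) * rr x (n + kk y) = rr x n
        rw [hxr, hxr, hy]
        have : -(n + 1) = -n + (-1) := by ring
        rw [this, zpow_add₀ hp0, zpow_neg_one]
        field_simp
    have h2 := h x y h1
    have h3 : rr x 0 = 0 := by rw [h2, rr_one]
    rw [hxr] at h3
    simp at h3
  · intro hpS x y hxy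
    have hx : kk x = 0 := by
      have h1 := congrArg (coordOm S).K hxy
      rw [(coordOm S).K_pow, (coordOm S).K_mul, (coordOm S).K_mul, (coordOm S).K_inv] at h1
      have h2 : (p : ℤ) * kk x = kk x := by
        have : (p : ℤ) * (-kk y + kk x + kk y) = kk x := h1
        have e : -kk y + kk x + kk y = kk x := by ring
        rw [e] at this
        exact this
      have h3 : (1 : ℤ) < p := by exact_mod_cast hp.one_lt
      have h4 : ((p : ℤ) - 1) * kk x = 0 := by rw [sub_mul, h2]; ring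
      rcases mul_eq_zero.1 h4 with h5 | h5
      · omega
      · exact h5
    have hr : ∀ n, rr x n = p * rr x (n + kk y) := by
      intro n
      have hc := fun n => (coordOm S).conj (x := x) hx y n
      have h1 := congrArg (fun z => (coordOm S).ρ z n) hxy
      simp only [(coordOm S).ρ_pow (hc 0).1, (hc n).2] at h1
      exact h1.symm
    have hr' : ∀ n (j : ℕ), rr x n = (p : ℝ) ^ j * rr x (n + j * kk y) := by
      intro n j
      induction j with
      | zero => simp
      | succ j ih =>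
        rw [ih, hr (n + j * kk y)]
        push_cast
        have : n + j * kk y + kk y = n + (j + 1) * kk y := by ring
        rw [this]
        ring
    apply aut_ext (countable_RS S)
    · rw [hx, kk_one]
    · intro n
      rw [rr_one]
      exact divisible hp hpS fun j =>
        ⟨rr x (n + j * kk y), (act_spec (countable_RS S) x).1 _, hr' n j⟩

/-- A set of primes as a set of numbers. -/
def ST (T : Set {p : ℕ // p.Prime}) : Set ℕ := {n | ∃ q ∈ T, q.1 = n}

/-- The quasi-identities of `Aut (Om (RS T))`, for a set `T` of primes. -/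
noncomputable def QT (T : Set {p : ℕ // p.Prime}) : Set QId :=
  quasiTheory (Aut (Om (RS (ST T))))

lemma mem_QT (T : Set {p : ℕ // p.Prime}) (q : {p : ℕ // p.Prime}) : bs q ∈ QT T ↔ q ∉ T := by
  have h1 : bs q ∈ QT T ↔ Sat (Aut (Om (RS (ST T)))) (bs q) := Iff.rfl
  rw [h1, sat_iff _ q.2]
  apply not_congr
  constructor
  · rintro ⟨q', hq', h⟩
    rwa [← Subtype.ext h]
  · intro h
    exact ⟨q, h, rfl⟩

lemma QT_inj : Function.Injective QT := by
  intro T T' h
  ext q
  have h1 := mem_QT T q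
  rw [h, mem_QT] at h1
  exact (not_iff_not.1 h1).symm

/-- There are exactly `2^ℵ₀` quasi-varieties generated by automorphism groups of chains that
generate the same variety as `Aut (ℤ ×ₗ ℤ)`. -/
lemma card_eq :
    #{Q : Set QId | ∃ (Ω : Type) (_ : LinearOrder Ω),
      idTheory (Aut Ω) = idTheory (Aut (ℤ ×ₗ ℤ)) ∧ Q = quasiTheory (Aut Ω)} = 𝔠 := by
  apply le_antisymm
  · refine (mk_subtype_le _).trans ?_
    rw [mk_set, ← two_power_aleph0]
    exact power_le_power_left two_ne_zero mk_le_aleph0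
  · have h1 : #(Set {p : ℕ // p.Prime}) = 𝔠 := by
      have : Infinite {p : ℕ // p.Prime} := Nat.infinite_setOfPred_prime.to_subtype
      rw [mk_set, ← two_power_aleph0, Cardinal.mk_eq_aleph0]
    rw [← h1, ← mk_range_eq QT QT_inj]
    refine mk_le_mk_of_subset ?_
    rintro _ ⟨T, rfl⟩
    exact ⟨Om (RS (ST T)), instOm _, idTheory_eq _, rfl⟩

end Pool.Agent.H60.QV
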