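import Pool.Agent.H60.QV.Wr

/-! # From a decorated chain to a decorated chain whose group is the wreath product with `ℤ` -/

set_option autoImplicit false
set_option linter.unusedSectionVars false

namespace Pool.Agent.H60.QV.Step

variable {B W : Type} [LinearOrder B] [LinearOrder W] [WellFoundedLT W]

/-- `ℤ` copies of `{-∞} ∪ B`, one after the other. -/
abbrev Bp (B : Type) [LinearOrder B] : Type := ℤ ×ₗ WithBot B

/-- The point `-∞` of the copy `n`. -/
def pb (B : Type) [LinearOrder B] (n : ℤ) : Bp B := toLex (n, ⊥)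
/-- The point `x` of the copy `n`. -/
def pr (n : ℤ) (x : B) : Bp B := toLex (n, (x : WithBot B))

lemma cases (p : Bp B) : (∃ n, p = pb B n) ∨ ∃ n x, p = pr n x := by
  obtain ⟨⟨n, x⟩, rfl⟩ := toLex.surjective p
  induction x using WithBot.recBotCoe with
  | bot => exact Or.inl ⟨n, rfl⟩
  | coe x => exact Or.inr ⟨n, x, rfl⟩

lemma pb_lt_pb {n m : ℤ} : pb B n < pb B m ↔ n < m := by
  simp [pb, Prod.Lex.toLex_lt_toLex]

lemma pb_lt_pr {n m : ℤ} {x : B} : pb B n < pr m x ↔ n ≤ m := by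
  simp [pb, pr, Prod.Lex.toLex_lt_toLex, le_iff_lt_or_eq]

lemma pr_lt_pb {n m : ℤ} {x : B} : pr n x < pb B m ↔ n < m := by
  simp [pb, pr, Prod.Lex.toLex_lt_toLex]

lemma pr_lt_pr {n m : ℤ} {x y : B} : pr n x < pr m y ↔ n < m ∨ n = m ∧ x < y := by
  simp [pr, Prod.Lex.toLex_lt_toLex]

lemma pb_inj {n m : ℤ} : pb B n = pb B m ↔ n = m := by
  simp [pb]

lemma pr_inj {n m : ℤ} {x y : B} : pr n x = pr m y ↔ n = m ∧ x = y := by
  simp [pr]

lemma max_pb (n m : ℤ) : max (pb B n) (pb B m) = pb B (max n m) := by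
  rcases lt_trichotomy n m with h | rfl | h
  · rw [max_eq_right h.le, max_eq_right (pb_lt_pb.2 h).le]
  · simp
  · rw [max_eq_left h.le, max_eq_left (pb_lt_pb.2 h).le]

lemma min_pb (n m : ℤ) : min (pb B n) (pb B m) = pb B (min n m) := by
  rcases lt_trichotomy n m with h | rfl | h
  · rw [min_eq_left h.le, min_eq_left (pb_lt_pb.2 h).le]
  · simp
  · rw [min_eq_right h.le, min_eq_right (pb_lt_pb.2 h).le]

lemma max_pr (n : ℤ) (x y : B) : max (pr n x) (pr n y) = pr n (max x y) := by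
  rcases lt_trichotomy x y with h | rfl | h
  · rw [max_eq_right h.le, max_eq_right (pr_lt_pr.2 (Or.inr ⟨rfl, h⟩)).le]
  · simp
  · rw [max_eq_left h.le, max_eq_left (pr_lt_pr.2 (Or.inr ⟨rfl, h⟩)).le]

lemma min_pr (n : ℤ) (x y : B) : min (pr n x) (pr n y) = pr n (min x y) := by
  rcases lt_trichotomy x y with h | rfl | h
  · rw [min_eq_left h.le, min_eq_left (pr_lt_pr.2 (Or.inr ⟨rfl, h⟩)).le]
  · simp
  · rw [min_eq_right h.le, min_eq_right (pr_lt_pr.2 (Or.inr ⟨rfl, h⟩)).le]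

/-- Properties of the chain `B`. -/
structure Good (B : Type) [LinearOrder B] : Prop where
  down : Down B
  noMin : ∀ b : B, ∃ c, c < b
  noMax : ∀ b : B, ∃ c, b < c
  nonempty : Nonempty B

lemma down_aux (hB : Good B) (x : WithBot B) (y : B) (h : x < y) :
    ∃ s : ℕ → B, StrictAnti s ∧ ∀ k, x ≤ (s k : WithBot B) ∧ s k ≤ y := by
  induction x using WithBot.recBotCoe with
  | bot =>
    obtain ⟨c, hc⟩ := hB.noMin y
    obtain ⟨s, hs, h1⟩ := hB.down c y hc
    exact ⟨s, hs, fun k => ⟨bot_le, (h1 k).2⟩⟩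
  | coe x =>
    obtain ⟨s, hs, h1⟩ := hB.down x y (by simpa using h)
    exact ⟨s, hs, fun k => ⟨WithBot.coe_le_coe.2 (h1 k).1, (h1 k).2⟩⟩

lemma good (hB : Good B) : Good (Bp B) where
  down := by
    intro a b hab
    obtain ⟨⟨n, x⟩, rfl⟩ := toLex.surjective a
    obtain ⟨⟨m, y⟩, rfl⟩ := toLex.surjective b
    rw [Prod.Lex.toLex_lt_toLex] at hab
    have key : ∃ z : B, x < z ∧ (n < m ∨ (n = m ∧ (z : WithBot B) ≤ y)) := by
      rcases hab with h | h
      · induction x using WithBot.recBotCoe with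
        | bot => exact ⟨hB.nonempty.some, WithBot.bot_lt_coe _, Or.inl h⟩
        | coe x =>
          obtain ⟨c, hc⟩ := hB.noMax x
          exact ⟨c, WithBot.coe_lt_coe.2 hc, Or.inl h⟩
      · have h2 : x < y := h.2
        induction y using WithBot.recBotCoe with
        | bot => exact absurd h2 not_lt_bot
        | coe y => exact ⟨y, h2, Or.inr ⟨h.1, le_rfl⟩⟩
    obtain ⟨z, hz, h⟩ := key
    obtain ⟨s, hs, h1⟩ := down_aux hB x z hz
    refine ⟨fun k => pr n (s k), fun i j hij => pr_lt_pr.2 (Or.inr ⟨rfl, hs hij⟩),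
      fun k => ⟨?_, ?_⟩⟩
    · exact Prod.Lex.toLex_le_toLex.2 (Or.inr ⟨rfl, (h1 k).1⟩)
    · refine Prod.Lex.toLex_le_toLex.2 ?_
      rcases h with h | ⟨h, h'⟩
      · exact Or.inl h
      · exact Or.inr ⟨h, (WithBot.coe_le_coe.2 (h1 k).2).trans h'⟩
  noMin p := by
    rcases cases p with ⟨n, rfl⟩ | ⟨n, x, rfl⟩
    · exact ⟨pb B (n - 1), pb_lt_pb.2 (by omega)⟩
    · exact ⟨pb B (n - 1), pb_lt_pr.2 (by omega)⟩
  noMax p := by
    rcases cases p with ⟨n, rfl⟩ | ⟨n, x, rfl⟩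
    · exact ⟨pb B (n + 1), pb_lt_pb.2 (by omega)⟩
    · exact ⟨pb B (n + 1), pr_lt_pb.2 (by omega)⟩
  nonempty := ⟨pb B 0⟩

/-- The decoration of `Bp B`: a new largest mark at the points `-∞`. -/
def qp (q : B → W) (p : Bp B) : WithTop W :=
  WithBot.recBotCoe (C := fun _ => WithTop W) ⊤ (fun x => ((q x : W) : WithTop W)) (ofLex p).2

variable {q : B → W}

lemma qp_pb (n : ℤ) : qp q (pb B n) = ⊤ := rfl
lemma qp_pr (n : ℤ) (x : B) : qp q (pr n x) = ((q x : W) : WithTop W) := rfl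

lemma img_pb {ψ : Aut (Bp B)} (h : ∀ b, qp q (ψ b) = qp q b) (n : ℤ) :
    ∃ m, ψ (pb B n) = pb B m := by
  have h1 := h (pb B n)
  rcases cases (ψ (pb B n)) with ⟨m, hm⟩ | ⟨m, x, hm⟩
  · exact ⟨m, hm⟩
  · rw [hm, qp_pb, qp_pr] at h1
    exact absurd h1 (WithTop.coe_ne_top)

lemma img_pr {ψ : Aut (Bp B)} (h : ∀ b, qp q (ψ b) = qp q b) (n : ℤ) (x : B) :
    ∃ m y, ψ (pr n x) = pr m y ∧ q y = q x := by
  have h1 := h (pr n x)
  rcases cases (ψ (pr n x)) with ⟨m, hm⟩ | ⟨m, y, hm⟩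
  · rw [hm, qp_pb, qp_pr] at h1
    exact absurd h1.symm (WithTop.coe_ne_top)
  · refine ⟨m, y, hm, ?_⟩
    rw [hm, qp_pr, qp_pr, WithTop.coe_inj] at h1
    exact h1

/-- The structure of the automorphisms of `Bp B` that keep the marks. -/
lemma struct {ψ : Aut (Bp B)} (h : ∀ b, qp q (ψ b) = qp q b) :
    ∃ (k : ℤ) (f : ℤ → Aut B), (∀ n x, q (f n x) = q x) ∧ (∀ n, ψ (pb B n) = pb B (n + k)) ∧
      ∀ n x, ψ (pr n x) = pr (n + k) (f n x) := by
  have hinv : ∀ b, qp q (ψ⁻¹ b) = qp q b := inv_q h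
  choose σ hσ using img_pb h
  choose σ' hσ' using img_pb hinv
  choose τ g hτ using img_pr h
  choose τ' g' hτ' using img_pr hinv
  have hσm : ∀ n m, n < m ↔ σ n < σ m := by
    intro n m
    rw [← pb_lt_pb (B := B), ← ψ.lt_iff, hσ, hσ, pb_lt_pb]
  have hσs : ∀ n, σ (n + 1) = σ n + 1 := by
    intro n
    have h1 : ψ (pb B (σ' (σ n + 1))) = pb B (σ n + 1) := by
      rw [← hσ', Aut.apply_inv_self]
    rw [hσ, pb_inj] at h1
    have h2 : n < σ' (σ n + 1) := by rw [hσm, h1]; omega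
    rcases (Int.add_one_le_iff.2 h2).lt_or_eq with h3 | h3
    · have h4 := (hσm _ _).1 h3
      have h5 := (hσm n (n + 1)).1 (by omega)
      omega
    · rw [← h3] at h1
      exact h1
  have hσk : ∀ n, σ n = n + σ 0 := by
    intro n
    induction n using Int.induction_on with
    | zero => simp
    | succ n ih => rw [hσs, ih]; ring
    | pred n ih =>
      have := hσs (-(n : ℤ) - 1)
      rw [sub_add_cancel, ih] at this
      linarith
  have hτσ : ∀ n x, τ n x = σ n := by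
    intro n x
    have h1 : ψ (pb B n) < ψ (pr n x) := ψ.lt_iff.2 (pb_lt_pr.2 le_rfl)
    have h2 : ψ (pr n x) < ψ (pb B (n + 1)) := ψ.lt_iff.2 (pr_lt_pb.2 (by omega))
    rw [hσ, (hτ n x).1, pb_lt_pr] at h1
    rw [hσ, (hτ n x).1, pr_lt_pb, hσs] at h2
    omega
  have hmono : ∀ n, StrictMono (g n) := by
    intro n x y hxy
    have h1 : ψ (pr n x) < ψ (pr n y) := ψ.lt_iff.2 (pr_lt_pr.2 (Or.inr ⟨rfl, hxy⟩))
    rw [(hτ n x).1, (hτ n y).1, hτσ, hτσ, pr_lt_pr] at h1
    simpa using h1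
  have hsurj : ∀ n, Function.Surjective (g n) := by
    intro n y
    have h1 : ψ (pr (τ' (σ n) y) (g' (σ n) y)) = pr (σ n) y := by
      rw [← (hτ' (σ n) y).1, Aut.apply_inv_self]
    rw [(hτ _ _).1, pr_inj, hτσ] at h1
    have h2 : τ' (σ n) y = n := by
      have e0 := h1.1
      have e1 := hσk (τ' (σ n) y)
      have e2 := hσk n
      omega
    rw [h2] at h1
    exact ⟨_, h1.2⟩
  let f : ℤ → Aut B := fun n => StrictMono.orderIsoOfSurjective (g n) (hmono n) (hsurj n)
  refine ⟨σ 0, f, fun n x => (hτ n x).2, fun n => ?_, fun n x => ?_⟩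
  · rw [hσ, hσk]
  · rw [(hτ n x).1, hτσ, hσk]
    rfl

/-- An automorphism of the wreath product. -/
def shift (k : ℤ) (g : ℤ → Aut B) : Aut (Bp B) where
  toFun p := toLex ((ofLex p).1 + k, WithBot.map (g (ofLex p).1) (ofLex p).2)
  invFun p := toLex ((ofLex p).1 - k, WithBot.map (fun x => (g ((ofLex p).1 - k))⁻¹ x) (ofLex p).2)
  left_inv p := by
    rcases cases p with ⟨n, rfl⟩ | ⟨n, x, rfl⟩
    · simp [pb]
    · simp [pr]
  right_inv p := by
    rcases cases p with ⟨n, rfl⟩ | ⟨n, x, rfl⟩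
    · simp [pb]
    · simp [pr]
  map_rel_iff' := by
    intro a b
    rcases cases a with ⟨n, rfl⟩ | ⟨n, x, rfl⟩ <;> rcases cases b with ⟨m, rfl⟩ | ⟨m, y, rfl⟩
    · simp [pb, Prod.Lex.toLex_le_toLex]
    · simp [pb, pr, Prod.Lex.toLex_le_toLex]
    · simp [pb, pr, Prod.Lex.toLex_le_toLex]
    · simp only [pr, Equiv.coe_fn_mk, Prod.Lex.toLex_le_toLex, ofLex_toLex,
        add_lt_add_iff_right, add_left_inj, WithBot.map_coe, WithBot.coe_le_coe]
      constructor
      · rintro (h | ⟨rfl, h⟩)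
        · exact Or.inl h
        · exact Or.inr ⟨rfl, (g n).le_iff.1 h⟩
      · rintro (h | ⟨rfl, h⟩)
        · exact Or.inl h
        · exact Or.inr ⟨rfl, (g n).le_iff.2 h⟩

lemma shift_pb (k : ℤ) (g : ℤ → Aut B) (n : ℤ) : shift k g (pb B n) = pb B (n + k) := rfl
lemma shift_pr (k : ℤ) (g : ℤ → Aut B) (n : ℤ) (x : B) :
    shift k g (pr n x) = pr (n + k) (g n x) := rfl

lemma struct' (hB : Good B) (φ : Aut (Deco (qp q))) :
    ∃ (k : ℤ) (f : ℤ → Aut (Deco q)), (∀ n, toB (good hB).down φ (pb B n) = pb B (n + k)) ∧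
      ∀ n x, toB (good hB).down φ (pr n x) = pr (n + k) (toB hB.down (f n) x) := by
  obtain ⟨k, f, h1, h2, h3⟩ := struct (q := q) (ψ := toB (good hB).down φ)
    (q_toB (good hB).down φ)
  refine ⟨k, fun n => ofB (f n) (h1 n), h2, fun n x => ?_⟩
  rw [h3, toB_ofB]

/-- The `ℤ`-coordinate. -/
noncomputable def K (hB : Good B) (φ : Aut (Deco (qp q))) : ℤ := (struct' hB φ).choose
/-- The coordinates in the bottom group. -/
noncomputable def hh (hB : Good B) (φ : Aut (Deco (qp q))) : ℤ → Aut (Deco q) :=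
  (struct' hB φ).choose_spec.choose

lemma spec_pb (hB : Good B) (φ : Aut (Deco (qp q))) (n : ℤ) :
    toB (good hB).down φ (pb B n) = pb B (n + K hB φ) :=
  (struct' hB φ).choose_spec.choose_spec.1 n

lemma spec_pr (hB : Good B) (φ : Aut (Deco (qp q))) (n : ℤ) (x : B) :
    toB (good hB).down φ (pr n x) = pr (n + K hB φ) (toB hB.down (hh hB φ n) x) :=
  (struct' hB φ).choose_spec.choose_spec.2 n x

lemma K_of (hB : Good B) {φ : Aut (Deco (qp q))} {m : ℤ}
    (h : toB (good hB).down φ (pb B 0) = pb B m) : K hB φ = m := by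
  rw [spec_pb, pb_inj, zero_add] at h
  exact h

lemma hh_of (hB : Good B) {φ : Aut (Deco (qp q))} {n m : ℤ} {χ : Aut (Deco q)}
    (h : ∀ x, toB (good hB).down φ (pr n x) = pr m (toB hB.down χ x)) : hh hB φ n = χ := by
  apply toB_inj hB.down
  ext x
  have := h x
  rw [spec_pr, pr_inj] at this
  exact this.2

/-- `Aut (Deco (qp q))` is the wreath product of `Aut (Deco q)` and `ℤ`. -/
noncomputable def wrCoord (hB : Good B) : WrCoord (Aut (Deco (qp q))) (Aut (Deco q)) where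
  K := K hB
  h := hh hB
  ext := by
    intro a b h1 h2
    apply toB_inj (good hB).down
    ext p
    rcases cases p with ⟨n, rfl⟩ | ⟨n, x, rfl⟩
    · rw [spec_pb hB, spec_pb hB, h1]
    · rw [spec_pr hB, spec_pr hB, h1, h2]
  K_mul a b := K_of hB (by
    rw [toB_mul, Aut.mul_apply, spec_pb hB, spec_pb hB, pb_inj]; ring)
  h_mul a b n := hh_of hB (m := n + K hB b + K hB a) fun x => by
    rw [toB_mul, Aut.mul_apply, spec_pr hB, spec_pr hB, toB_mul, Aut.mul_apply]
  K_sup a b := K_of hB (by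
    rw [toB_sup, Aut.sup_apply, spec_pb hB, spec_pb hB, max_pb, zero_add, zero_add])
  K_inf a b := K_of hB (by
    rw [toB_inf, Aut.inf_apply, spec_pb hB, spec_pb hB, min_pb, zero_add, zero_add])
  h_sup a b n := by
    rcases lt_trichotomy (K hB a) (K hB b) with h | h | h
    · rw [if_pos h]
      exact hh_of hB (m := n + K hB b) fun x => by
        rw [toB_sup, Aut.sup_apply, spec_pr hB, spec_pr hB, max_eq_right
          (pr_lt_pr.2 (Or.inl (by omega))).le]
    · rw [if_neg (by omega), if_neg (by omega)]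
      exact hh_of hB (m := n + K hB b) fun x => by
        rw [toB_sup, Aut.sup_apply, spec_pr hB, spec_pr hB, h, max_pr, toB_sup, Aut.sup_apply]
    · rw [if_neg (by omega), if_pos h]
      exact hh_of hB (m := n + K hB a) fun x => by
        rw [toB_sup, Aut.sup_apply, spec_pr hB, spec_pr hB, max_eq_left
          (pr_lt_pr.2 (Or.inl (by omega))).le]
  h_inf a b n := by
    rcases lt_trichotomy (K hB a) (K hB b) with h | h | h
    · rw [if_pos h]
      exact hh_of hB (m := n + K hB a) fun x => by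
        rw [toB_inf, Aut.inf_apply, spec_pr hB, spec_pr hB, min_eq_left
          (pr_lt_pr.2 (Or.inl (by omega))).le]
    · rw [if_neg (by omega), if_neg (by omega)]
      exact hh_of hB (m := n + K hB b) fun x => by
        rw [toB_inf, Aut.inf_apply, spec_pr hB, spec_pr hB, h, min_pr, toB_inf, Aut.inf_apply]
    · rw [if_neg (by omega), if_pos h]
      exact hh_of hB (m := n + K hB b) fun x => by
        rw [toB_inf, Aut.inf_apply, spec_pr hB, spec_pr hB, min_eq_right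
          (pr_lt_pr.2 (Or.inl (by omega))).le]
  surj k f := by
    have hq : ∀ b, qp q (shift k (fun n => toB hB.down (f n)) b) = qp q b := by
      intro p
      rcases cases p with ⟨n, rfl⟩ | ⟨n, x, rfl⟩
      · rw [shift_pb, qp_pb, qp_pb]
      · rw [shift_pr, qp_pr, qp_pr, q_toB (q := q) hB.down]
    refine ⟨ofB _ hq, K_of hB ?_, fun n => hh_of hB (m := n + k) fun x => ?_⟩
    · rw [toB_ofB, shift_pb, zero_add]
    · rw [toB_ofB, shift_pr]

end Pool.Agent.H60.QV.Step
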