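import Pool.Agent.H60.QV.Main

/-! # Wreath products with `ℤ` -/

set_option autoImplicit false

namespace Pool.Agent.H60.QV

/-- Coordinates that identify `G` with the wreath product of `H` and `ℤ`. -/
structure WrCoord (G H : Type) [Group G] [Lattice G] [Group H] [Lattice H] where
  K : G → ℤ
  h : G → ℤ → H
  ext : ∀ {a b : G}, K a = K b → (∀ n, h a n = h b n) → a = b
  K_mul : ∀ a b, K (a * b) = K a + K b
  h_mul : ∀ a b n, h (a * b) n = h a (n + K b) * h b n
  K_sup : ∀ a b, K (a ⊔ b) = max (K a) (K b)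
  K_inf : ∀ a b, K (a ⊓ b) = min (K a) (K b)
  h_sup : ∀ a b n, h (a ⊔ b) n = if K a < K b then h b n else if K b < K a then h a n
      else h a n ⊔ h b n
  h_inf : ∀ a b n, h (a ⊓ b) n = if K a < K b then h a n else if K b < K a then h b n
      else h a n ⊓ h b n
  surj : ∀ (k : ℤ) (f : ℤ → H), ∃ a, K a = k ∧ ∀ n, h a n = f n

variable {G H G' H' : Type} [Group G] [Lattice G] [Group H] [Lattice H]
  [Group G'] [Lattice G'] [Group H'] [Lattice H']

namespace WrCoord

lemma K_one (C : WrCoord G H) : C.K 1 = 0 := by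
  have := C.K_mul 1 1
  rw [mul_one] at this
  linarith

lemma h_one (C : WrCoord G H) (n : ℤ) : C.h 1 n = 1 := by
  have := C.h_mul 1 1 n
  rw [mul_one, C.K_one, add_zero] at this
  exact (mul_eq_left.1 this.symm)

lemma K_inv (C : WrCoord G H) (a : G) : C.K a⁻¹ = -C.K a := by
  have := C.K_mul a⁻¹ a
  rw [inv_mul_cancel, C.K_one] at this
  linarith

lemma h_inv (C : WrCoord G H) (a : G) (n : ℤ) : C.h a⁻¹ n = (C.h a (n - C.K a))⁻¹ := by
  have := C.h_mul a a⁻¹ n
  rw [mul_inv_cancel, C.h_one, C.K_inv, ← sub_eq_add_neg] at this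
  exact eq_inv_of_mul_eq_one_right this.symm

lemma K_pow (C : WrCoord G H) (a : G) (m : ℕ) : C.K (a ^ m) = m * C.K a := by
  induction m with
  | zero => simp [C.K_one]
  | succ m ih => rw [pow_succ, C.K_mul, ih]; push_cast; ring

lemma h_pow (C : WrCoord G H) {a : G} (ha : C.K a = 0) (m : ℕ) (n : ℤ) :
    C.h (a ^ m) n = (C.h a n) ^ m := by
  induction m with
  | zero => simp [C.h_one]
  | succ m ih => rw [pow_succ, C.h_mul, ha, add_zero, ih, pow_succ]

end WrCoord

/-- A coding of pairs. -/
def enc (i : ℕ) (n : ℤ) : ℕ := Encodable.encode (i, n)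

/-- The `ℤ`-coordinate of the value of a term. -/
def kt (κ : ℕ → ℤ) : Term → ℤ
  | .var i => κ i
  | .one => 0
  | .mul a b => kt κ a + kt κ b
  | .inv a => -kt κ a
  | .inf a b => min (kt κ a) (kt κ b)
  | .sup a b => max (kt κ a) (kt κ b)

/-- The term whose value is the coordinate at `n` of the value of a term. -/
def tr (κ : ℕ → ℤ) : Term → ℤ → Term
  | .var i, n => .var (enc i n)
  | .one, _ => .one
  | .mul a b, n => .mul (tr κ a (n + kt κ b)) (tr κ b n)
  | .inv a, n => .inv (tr κ a (n - kt κ a))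
  | .inf a b, n => if kt κ a < kt κ b then tr κ a n else if kt κ b < kt κ a then tr κ b n
      else .inf (tr κ a n) (tr κ b n)
  | .sup a b, n => if kt κ a < kt κ b then tr κ b n else if kt κ b < kt κ a then tr κ a n
      else .sup (tr κ a n) (tr κ b n)

/-- The values of the variables. -/
def wv (C : WrCoord G H) (v : ℕ → G) (m : ℕ) : H :=
  match Encodable.decode (α := ℕ × ℤ) m with
  | some p => C.h (v p.1) p.2
  | none => 1

lemma wv_enc (C : WrCoord G H) (v : ℕ → G) (i : ℕ) (n : ℤ) : wv C v (enc i n) = C.h (v i) n := by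
  unfold wv enc
  rw [Encodable.encodek]

lemma eval_tr (C : WrCoord G H) (v : ℕ → G) (τ : Term) :
    C.K (τ.eval v) = kt (fun i => C.K (v i)) τ ∧
      ∀ n, C.h (τ.eval v) n = (tr (fun i => C.K (v i)) τ n).eval (wv C v) := by
  induction τ with
  | var i => exact ⟨rfl, fun n => by simp only [Term.eval, tr, wv_enc]⟩
  | one => exact ⟨C.K_one, fun n => C.h_one n⟩
  | mul a b iha ihb =>
    refine ⟨?_, fun n => ?_⟩
    · simp only [Term.eval, kt]
      rw [C.K_mul, iha.1, ihb.1]
    · simp only [Term.eval, tr]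
      rw [C.h_mul, iha.2, ihb.2, ihb.1]
  | inv a iha =>
    refine ⟨?_, fun n => ?_⟩
    · simp only [Term.eval, kt]
      rw [C.K_inv, iha.1]
    · simp only [Term.eval, tr]
      rw [C.h_inv, iha.2, iha.1]
  | inf a b iha ihb =>
    refine ⟨?_, fun n => ?_⟩
    · simp only [Term.eval, kt]
      rw [C.K_inf, iha.1, ihb.1]
    · simp only [Term.eval, tr]
      rw [C.h_inf, iha.1, ihb.1, iha.2, ihb.2]
      split_ifs
      · rfl
      · rfl
      · rfl
  | sup a b iha ihb =>
    refine ⟨?_, fun n => ?_⟩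
    · simp only [Term.eval, kt]
      rw [C.K_sup, iha.1, ihb.1]
    · simp only [Term.eval, tr]
      rw [C.h_sup, iha.1, ihb.1, iha.2, ihb.2]
      split_ifs
      · rfl
      · rfl
      · rfl

/-- The identities of a wreath product with `ℤ` are determined by the identities of the bottom
group. -/
lemma mem_idTheory_iff (C : WrCoord G H) (e : Term × Term) :
    e ∈ idTheory G ↔ ∀ κ : ℕ → ℤ, kt κ e.1 = kt κ e.2 ∧
      ∀ n, (tr κ e.1 n, tr κ e.2 n) ∈ idTheory H := by
  constructor
  · intro he κ
    have key : ∀ w : ℕ → H, ∃ v : ℕ → G, (∀ i, C.K (v i) = κ i) ∧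
        ∀ i n, C.h (v i) n = w (enc i n) := by
      intro w
      choose v h1 h2 using fun i => C.surj (κ i) (fun n => w (enc i n))
      exact ⟨v, h1, h2⟩
    refine ⟨?_, fun n w _ => ?_⟩
    · obtain ⟨v, h1, _⟩ := key (fun _ => 1)
      have h3 := he v (by simp)
      have h4 := congrArg C.K h3
      rw [(eval_tr C v e.1).1, (eval_tr C v e.2).1] at h4
      have h5 : (fun i => C.K (v i)) = κ := funext h1
      rwa [h5] at h4
    · obtain ⟨v, h1, h2⟩ := key w
      have h3 := he v (by simp)
      have h4 := congrArg (fun z => C.h z n) h3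
      simp only at h4
      rw [(eval_tr C v e.1).2, (eval_tr C v e.2).2] at h4
      have h5 : (fun i => C.K (v i)) = κ := funext h1
      rw [h5] at h4
      -- the values at the codes agree
      have h6 : ∀ (τ : Term) (n : ℤ), (tr κ τ n).eval (wv C v) = (tr κ τ n).eval w := by
        intro τ
        induction τ with
        | var i => intro n; simp only [tr, Term.eval, wv_enc, h2]
        | one => intro n; rfl
        | mul a b iha ihb => intro n; simp only [tr, Term.eval, iha, ihb]
        | inv a iha => intro n; simp only [tr, Term.eval, iha]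
        | inf a b iha ihb =>
          intro n
          simp only [tr]
          split_ifs
          · exact iha n
          · exact ihb n
          · simp only [Term.eval, iha, ihb]
        | sup a b iha ihb =>
          intro n
          simp only [tr]
          split_ifs
          · exact ihb n
          · exact iha n
          · simp only [Term.eval, iha, ihb]
      rw [h6, h6] at h4
      exact h4
  · intro he v _
    apply C.ext
    · rw [(eval_tr C v e.1).1, (eval_tr C v e.2).1]
      exact (he _).1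
    · intro n
      rw [(eval_tr C v e.1).2, (eval_tr C v e.2).2]
      exact (he (fun i => C.K (v i))).2 n (wv C v) (by simp)

lemma idTheory_wr (C : WrCoord G H) (C' : WrCoord G' H') (h : idTheory H = idTheory H') :
    idTheory G = idTheory G' := by
  ext e
  rw [mem_idTheory_iff C, mem_idTheory_iff C', h]

/-- Only the identity starts an infinite sequence of `p`-th roots. -/
def Rootless (G : Type) [Group G] (p : ℕ) : Prop :=
  ∀ s : ℕ → G, (∀ j, s (j + 1) ^ p = s j) → s 0 = 1

lemma Rootless.all {p : ℕ} (h : Rootless G p) {s : ℕ → G} (hs : ∀ j, s (j + 1) ^ p = s j)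
    (j : ℕ) : s j = 1 := by
  have := h (fun i => s (i + j)) (fun i => by
    have := hs (i + j)
    rw [show i + 1 + j = i + j + 1 by ring]
    exact this)
  simpa using this

lemma int_rootless {p : ℕ} (hp : p.Prime) {k : ℕ → ℤ} (hk : ∀ j, p * k (j + 1) = k j) :
    ∀ j, k j = 0 := by
  have h1 : ∀ i j : ℕ, ((p : ℤ) ^ i) ∣ k j := by
    intro i
    induction i with
    | zero => intro j; simp
    | succ i ih =>
      intro j
      obtain ⟨c, hc⟩ := ih (j + 1)
      refine ⟨c, ?_⟩
      rw [← hk j, hc]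
      ring
  intro j
  by_contra hne
  have h2 := Int.le_of_dvd (abs_pos.2 hne) ((dvd_abs _ _).2 (h1 (k j).natAbs j))
  have h3 : (k j).natAbs < p ^ (k j).natAbs := Nat.lt_pow_self hp.one_lt
  have h4 : (((k j).natAbs : ℤ)) < (p : ℤ) ^ (k j).natAbs := by exact_mod_cast h3
  rw [Int.natCast_natAbs] at h4
  omega

lemma rootless_wr (C : WrCoord G H) {p : ℕ} (hp : p.Prime) (h : Rootless H p) :
    Rootless G p := by
  intro s hs
  have hK : ∀ j, C.K (s j) = 0 := int_rootless hp fun j => by rw [← hs j, C.K_pow]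
  apply C.ext
  · rw [hK, C.K_one]
  · intro n
    rw [C.h_one]
    exact h (fun j => C.h (s j) n) fun j => by
      rw [← C.h_pow (hK _), hs]

lemma sat_bs_of_rootless {p : ℕ} (h : Rootless G p) : Sat G (bs p) := by
  rw [sat_bs]
  intro x y hxy
  have e2 : ∀ z w : G, (z⁻¹ * w * z) ^ p = z⁻¹ * w ^ p * z := by
    intro z w
    have := map_pow (MulAut.conj z⁻¹) w p
    simp only [MulAut.conj_apply, inv_inv] at this
    exact this.symm
  have h1 := h (fun j => (y ^ j)⁻¹ * x * y ^ j) (fun j => by
    have e1 : (y ^ (j + 1))⁻¹ * x * y ^ (j + 1) = (y ^ j)⁻¹ * (y⁻¹ * x * y) * y ^ j := by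
      rw [pow_succ']
      group
    rw [e1, e2, hxy])
  simpa using h1

lemma not_sat_wr (C : WrCoord G H) {p : ℕ} (h : ¬ Sat H (bs p)) : ¬ Sat G (bs p) := by
  rw [sat_bs] at h ⊢
  intro hG
  apply h
  intro x y hxy
  obtain ⟨a, ha, ha'⟩ := C.surj 0 (fun _ => x)
  obtain ⟨b, hb, hb'⟩ := C.surj 0 (fun _ => y)
  have hc : C.K (b⁻¹ * a * b) = 0 := by rw [C.K_mul, C.K_mul, C.K_inv, ha, hb]; rfl
  have h1 := hG a b (C.ext (by rw [C.K_pow, hc, ha]; simp) (fun n => by
    rw [C.h_pow hc, C.h_mul, C.h_mul, C.h_inv, hb', hb', ha', hxy, ha']))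
  have h2 := ha' 0
  rw [h1, C.h_one] at h2
  exact h2.symm

lemma rootless_Om (S : Set ℕ) {p : ℕ} (hp : p.Prime) (hpS : p ∉ S) :
    Rootless (Aut (Om (RS S))) p := by
  intro s hs
  have hK : ∀ j, kk (s j) = 0 := int_rootless hp fun j => by
    rw [← hs j]; exact ((coordOm S).K_pow _ _).symm
  have hr : ∀ n (j : ℕ), rr (s 0) n = (p : ℝ) ^ j * rr (s j) n := by
    intro n j
    induction j with
    | zero => simp
    | succ j ih =>
      have h1 : rr (s (j + 1) ^ p) n = p * rr (s (j + 1)) n := (coordOm S).ρ_pow (hK _) p n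
      rw [hs] at h1
      rw [ih, h1]
      ring
  apply aut_ext (countable_RS S)
  · rw [hK, kk_one]
  · intro n
    rw [rr_one]
    exact divisible hp hpS fun j => ⟨rr (s j) n, (act_spec (countable_RS S) _).1 _, hr n j⟩

end Pool.Agent.H60.QV
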