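import Pool.Agent.H60.QV.Step

/-! # The automorphism group of `ℤ ×ₗ Z` for iterated lexicographic products `Z` of `ℤ` -/

set_option autoImplicit false
set_option linter.unusedSectionVars false

namespace Pool.Agent.H60.QV.ZStep

/-- `P 0 a b` is `a < b`; `P (j + 1) a b` says that the interval from `a` to `b` contains an
infinite sequence, increasing or decreasing, of points with consecutive ones related by `P j`. -/
def P (X : Type) [LinearOrder X] : ℕ → X → X → Prop
  | 0, a, b => a < b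
  | j + 1, a, b => ∃ s : ℕ → X, (∀ i, a ≤ s i ∧ s i ≤ b) ∧
      ((∀ i, P X j (s i) (s (i + 1))) ∨ (∀ i, P X j (s (i + 1)) (s i)))

section
variable {X : Type} [LinearOrder X]

lemma P_map (φ : Aut X) (j : ℕ) : ∀ a b, P X j a b → P X j (φ a) (φ b) := by
  induction j with
  | zero => exact fun a b h => φ.lt_iff.2 h
  | succ j ih =>
    rintro a b ⟨s, hs, h⟩
    refine ⟨fun i => φ (s i), fun i => ⟨φ.le_iff.2 (hs i).1, φ.le_iff.2 (hs i).2⟩, ?_⟩
    rcases h with h | h
    · exact Or.inl fun i => ih _ _ (h i)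
    · exact Or.inr fun i => ih _ _ (h i)

lemma P_lt (j : ℕ) : ∀ a b, P X j a b → a < b := by
  induction j with
  | zero => exact fun a b h => h
  | succ j ih =>
    rintro a b ⟨s, hs, h⟩
    rcases h with h | h
    · exact lt_of_le_of_lt (hs 0).1 (lt_of_lt_of_le (ih _ _ (h 0)) (hs 1).2)
    · exact lt_of_le_of_lt (hs 1).1 (lt_of_lt_of_le (ih _ _ (h 0)) (hs 0).2)

end

variable {Z : Type} [LinearOrder Z]

/-- The point `x` of the copy `n`. -/
def pr (n : ℤ) (x : Z) : ℤ ×ₗ Z := toLex (n, x)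

lemma cases (p : ℤ ×ₗ Z) : ∃ n x, p = pr n x := by
  obtain ⟨⟨n, x⟩, rfl⟩ := toLex.surjective p
  exact ⟨n, x, rfl⟩

lemma pr_lt {n m : ℤ} {x y : Z} : pr n x < pr m y ↔ n < m ∨ n = m ∧ x < y := by
  simp [pr, Prod.Lex.toLex_lt_toLex]

lemma pr_le {n m : ℤ} {x y : Z} : pr n x ≤ pr m y ↔ n < m ∨ n = m ∧ x ≤ y := by
  simp [pr, Prod.Lex.toLex_le_toLex]

lemma pr_inj {n m : ℤ} {x y : Z} : pr n x = pr m y ↔ n = m ∧ x = y := by
  simp [pr]

lemma max_pr (n : ℤ) (x y : Z) : max (pr n x) (pr n y) = pr n (max x y) := by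
  rcases lt_trichotomy x y with h | rfl | h
  · rw [max_eq_right h.le, max_eq_right (pr_lt.2 (Or.inr ⟨rfl, h⟩)).le]
  · simp
  · rw [max_eq_left h.le, max_eq_left (pr_lt.2 (Or.inr ⟨rfl, h⟩)).le]

lemma min_pr (n : ℤ) (x y : Z) : min (pr n x) (pr n y) = pr n (min x y) := by
  rcases lt_trichotomy x y with h | rfl | h
  · rw [min_eq_left h.le, min_eq_left (pr_lt.2 (Or.inr ⟨rfl, h⟩)).le]
  · simp
  · rw [min_eq_right h.le, min_eq_right (pr_lt.2 (Or.inr ⟨rfl, h⟩)).le]

lemma P_same (j : ℕ) (m : ℤ) : ∀ x y : Z, P (ℤ ×ₗ Z) j (pr m x) (pr m y) → P Z j x y := by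
  induction j with
  | zero =>
    intro x y h
    have h' : pr m x < pr m y := h
    rw [pr_lt] at h'
    rcases h' with h' | h'
    · exact absurd h' (lt_irrefl _)
    · exact h'.2
  | succ j ih =>
    rintro x y ⟨s, hs, h⟩
    have key : ∀ i, ∃ t : Z, s i = pr m t := by
      intro i
      obtain ⟨n, t, ht⟩ := cases (s i)
      have h1 := (hs i).1
      have h2 := (hs i).2
      rw [ht, pr_le] at h1 h2
      have : n = m := by
        rcases h1 with h1 | h1
        · rcases h2 with h2 | h2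
          · omega
          · omega
        · exact h1.1.symm
      exact ⟨t, by rw [ht, this]⟩
    choose t ht using key
    refine ⟨t, fun i => ?_, ?_⟩
    · have h1 := (hs i).1
      have h2 := (hs i).2
      rw [ht, pr_le] at h1 h2
      constructor
      · rcases h1 with h1 | h1
        · exact absurd h1 (lt_irrefl _)
        · exact h1.2
      · rcases h2 with h2 | h2
        · exact absurd h2 (lt_irrefl _)
        · exact h2.2
    · rcases h with h | h
      · refine Or.inl fun i => ih _ _ ?_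
        rw [← ht, ← ht]
        exact h i
      · refine Or.inr fun i => ih _ _ ?_
        rw [← ht, ← ht]
        exact h i

lemma P_lift (j : ℕ) (m : ℤ) : ∀ x y : Z, P Z j x y → P (ℤ ×ₗ Z) j (pr m x) (pr m y) := by
  induction j with
  | zero => exact fun x y h => pr_lt.2 (Or.inr ⟨rfl, h⟩)
  | succ j ih =>
    rintro x y ⟨s, hs, h⟩
    refine ⟨fun i => pr m (s i), fun i => ⟨pr_le.2 (Or.inr ⟨rfl, (hs i).1⟩),
      pr_le.2 (Or.inr ⟨rfl, (hs i).2⟩)⟩, ?_⟩
    rcases h with h | h
    · exact Or.inl fun i => ih _ _ (h i)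
    · exact Or.inr fun i => ih _ _ (h i)

/-- `Z` has rank `n`. -/
structure Rank (n : ℕ) (Z : Type) [LinearOrder Z] : Prop where
  no : ∀ a b : Z, ¬ P Z (n + 1) a b
  up : ∀ x : Z, ∃ s : ℕ → Z, (∀ i, x ≤ s i) ∧ ∀ i, P Z n (s i) (s (i + 1))
  nonempty : Nonempty Z

lemma rank_int : Rank 0 ℤ where
  no := by
    rintro a b ⟨s, hs, h⟩
    rcases h with h | h
    · have h1 : ∀ i : ℕ, s 0 + i ≤ s i := by
        intro i
        induction i with
        | zero => simp
        | succ i ih =>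
          have : s i < s (i + 1) := h i
          push_cast
          omega
      have h2 := h1 (b - a + 1).toNat
      have h3 := (hs 0).1
      have h4 := (hs (b - a + 1).toNat).2
      have h5 := (hs 0).2
      omega
    · have h1 : ∀ i : ℕ, s i ≤ s 0 - i := by
        intro i
        induction i with
        | zero => simp
        | succ i ih =>
          have : s (i + 1) < s i := h i
          push_cast
          omega
      have h2 := h1 (b - a + 1).toNat
      have h3 := (hs 0).2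
      have h4 := (hs (b - a + 1).toNat).1
      have h5 := (hs 0).1
      omega
  up x := ⟨fun i => x + i, fun i => by show x ≤ x + (i : ℤ); omega,
    fun i => by show x + (i : ℤ) < x + ((i + 1 : ℕ) : ℤ); push_cast; omega⟩
  nonempty := ⟨0⟩

lemma P_diff {n : ℕ} (hZ : Rank n Z) {m m' : ℤ} (h : m < m') (x y : Z) :
    P (ℤ ×ₗ Z) (n + 1) (pr m x) (pr m' y) := by
  obtain ⟨s, hs, h1⟩ := hZ.up x
  exact ⟨fun i => pr m (s i), fun i => ⟨pr_le.2 (Or.inr ⟨rfl, hs i⟩), pr_le.2 (Or.inl h)⟩,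
    Or.inl fun i => P_lift _ _ _ _ (h1 i)⟩

lemma P_iff {n : ℕ} (hZ : Rank n Z) {m m' : ℤ} (x y : Z) :
    P (ℤ ×ₗ Z) (n + 1) (pr m x) (pr m' y) ↔ m < m' := by
  constructor
  · intro h
    have h1 := P_lt _ _ _ h
    rw [pr_lt] at h1
    rcases h1 with h1 | ⟨h1, _⟩
    · exact h1
    · subst h1
      exact absurd (P_same _ _ _ _ h) (hZ.no _ _)
  · exact fun h => P_diff hZ h x y

lemma rank_next {n : ℕ} (hZ : Rank n Z) : Rank (n + 1) (ℤ ×ₗ Z) where
  no := by
    rintro a b ⟨s, hs, h⟩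
    choose c t ht using fun i => cases (s i)
    obtain ⟨a₁, a₂, ha⟩ := cases a
    obtain ⟨b₁, b₂, hb⟩ := cases b
    have hb1 : ∀ i, a₁ ≤ c i ∧ c i ≤ b₁ := by
      intro i
      have h1 := (hs i).1
      have h2 := (hs i).2
      rw [ht, ha, pr_le] at h1
      rw [ht, hb, pr_le] at h2
      omega
    apply rank_int.no a₁ b₁
    refine ⟨c, hb1, ?_⟩
    rcases h with h | h
    · left
      intro i
      have := h i
      rw [ht, ht (i + 1), P_iff hZ] at this
      exact this
    · right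
      intro i
      have := h i
      rw [ht, ht i, P_iff hZ] at this
      exact this
  up p := by
    obtain ⟨m, x, rfl⟩ := cases p
    refine ⟨fun i => pr (m + i) x, fun i => ?_, fun i => ?_⟩
    · rw [pr_le]
      rcases Nat.eq_zero_or_pos i with rfl | h
      · right; simp
      · left; omega
    · exact P_diff hZ (by push_cast; omega) x x
  nonempty := ⟨pr 0 hZ.nonempty.some⟩

/-- The structure of the automorphisms of `ℤ ×ₗ Z`. -/
lemma struct {n : ℕ} (hZ : Rank n Z) (ψ : Aut (ℤ ×ₗ Z)) :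
    ∃ (k : ℤ) (f : ℤ → Aut Z), ∀ n x, ψ (pr n x) = pr (n + k) (f n x) := by
  have hP : ∀ (ψ : Aut (ℤ ×ₗ Z)) {m m' : ℤ} {x y : Z} {a b : ℤ} {u v : Z},
      ψ (pr m x) = pr a u → ψ (pr m' y) = pr b v → m < m' → a < b := by
    intro ψ m m' x y a b u v h1 h2 h
    have h3 := P_map ψ _ _ _ (P_diff hZ h x y)
    rw [h1, h2, P_iff hZ] at h3
    exact h3
  obtain ⟨x₀⟩ := hZ.nonempty
  choose τ g hτ using fun (n : ℤ) (x : Z) => cases (ψ (pr n x))
  choose τ' g' hτ' using fun (n : ℤ) (x : Z) => cases (ψ⁻¹ (pr n x))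
  have hinv : ∀ n x, ψ (pr (τ' n x) (g' n x)) = pr n x := by
    intro n x
    rw [← hτ', Aut.apply_inv_self]
  have hinv' : ∀ n x, ψ⁻¹ (pr (τ n x) (g n x)) = pr n x := by
    intro n x
    rw [← hτ, Aut.inv_apply_self]
  have hτc : ∀ n x y, τ n x = τ n y := by
    intro n x y
    rcases lt_trichotomy (τ n x) (τ n y) with h | h | h
    · exact absurd (hP ψ⁻¹ (hinv' n x) (hinv' n y) h) (lt_irrefl _)
    · exact h
    · exact absurd (hP ψ⁻¹ (hinv' n y) (hinv' n x) h) (lt_irrefl _)
  have hmono : ∀ n m, n < m → τ n x₀ < τ m x₀ := fun n m h => hP ψ (hτ n x₀) (hτ m x₀) h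
  have hsurj : ∀ m, ∃ n, τ n x₀ = m := by
    intro m
    refine ⟨τ' m x₀, ?_⟩
    have h1 := hinv m x₀
    rw [hτ, pr_inj] at h1
    rw [hτc _ x₀ (g' m x₀)]
    exact h1.1
  have hmono' : ∀ n m, τ n x₀ < τ m x₀ → n < m := by
    intro n m h
    by_contra hc
    rcases (not_lt.1 hc).lt_or_eq with h1 | h1
    · exact absurd (hmono _ _ h1) (by omega)
    · rw [h1] at h
      exact absurd h (lt_irrefl _)
  have hsucc : ∀ n, τ (n + 1) x₀ = τ n x₀ + 1 := by
    intro n
    obtain ⟨m, hm⟩ := hsurj (τ n x₀ + 1)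
    have h1 := hmono' n m (by omega)
    rcases (Int.add_one_le_iff.2 h1).lt_or_eq with h2 | h2
    · have h3 := hmono _ _ h2
      have h4 := hmono n (n + 1) (by omega)
      omega
    · rw [h2, hm]
  have hk : ∀ n, τ n x₀ = n + τ 0 x₀ := by
    intro n
    induction n using Int.induction_on with
    | zero => simp
    | succ n ih => rw [hsucc, ih]; ring
    | pred n ih =>
      have := hsucc (-(n : ℤ) - 1)
      rw [sub_add_cancel, ih] at this
      linarith
  have hτk : ∀ n x, τ n x = n + τ 0 x₀ := fun n x => by rw [hτc n x x₀, hk]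
  have hgm : ∀ n, StrictMono (g n) := by
    intro n x y hxy
    have h1 : ψ (pr n x) < ψ (pr n y) := ψ.lt_iff.2 (pr_lt.2 (Or.inr ⟨rfl, hxy⟩))
    rw [hτ, hτ n y, hτk n x, hτk n y, pr_lt] at h1
    simpa using h1
  have hgs : ∀ n, Function.Surjective (g n) := by
    intro n y
    have h1 := hinv (n + τ 0 x₀) y
    rw [hτ, pr_inj, hτk] at h1
    have h2 : τ' (n + τ 0 x₀) y = n := by
      have := h1.1
      omega
    rw [h2] at h1
    exact ⟨_, h1.2⟩
  let f : ℤ → Aut Z := fun n => StrictMono.orderIsoOfSurjective (g n) (hgm n) (hgs n)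
  refine ⟨τ 0 x₀, f, fun n x => ?_⟩
  rw [hτ, hτk]
  rfl

/-- An automorphism of the wreath product. -/
def shift (k : ℤ) (g : ℤ → Aut Z) : Aut (ℤ ×ₗ Z) where
  toFun p := toLex ((ofLex p).1 + k, g (ofLex p).1 (ofLex p).2)
  invFun p := toLex ((ofLex p).1 - k, (g ((ofLex p).1 - k))⁻¹ (ofLex p).2)
  left_inv p := by simp
  right_inv p := by simp
  map_rel_iff' := by
    intro a b
    obtain ⟨n, x, rfl⟩ := cases a
    obtain ⟨m, y, rfl⟩ := cases b
    simp only [pr, Equiv.coe_fn_mk, Prod.Lex.toLex_le_toLex, ofLex_toLex,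
      add_lt_add_iff_right, add_left_inj]
    constructor
    · rintro (h | ⟨rfl, h⟩)
      · exact Or.inl h
      · exact Or.inr ⟨rfl, (g n).le_iff.1 h⟩
    · rintro (h | ⟨rfl, h⟩)
      · exact Or.inl h
      · exact Or.inr ⟨rfl, (g n).le_iff.2 h⟩

lemma shift_pr (k : ℤ) (g : ℤ → Aut Z) (n : ℤ) (x : Z) :
    shift k g (pr n x) = pr (n + k) (g n x) := rfl

variable {n : ℕ}

/-- The `ℤ`-coordinate. -/
noncomputable def K (hZ : Rank n Z) (φ : Aut (ℤ ×ₗ Z)) : ℤ := (struct hZ φ).choose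
/-- The coordinates in the bottom group. -/
noncomputable def hh (hZ : Rank n Z) (φ : Aut (ℤ ×ₗ Z)) : ℤ → Aut Z :=
  (struct hZ φ).choose_spec.choose

lemma spec (hZ : Rank n Z) (φ : Aut (ℤ ×ₗ Z)) (i : ℤ) (x : Z) :
    φ (pr i x) = pr (i + K hZ φ) (hh hZ φ i x) :=
  (struct hZ φ).choose_spec.choose_spec i x

lemma K_of (hZ : Rank n Z) {φ : Aut (ℤ ×ₗ Z)} {m : ℤ} {x y : Z}
    (h : φ (pr 0 x) = pr m y) : K hZ φ = m := by
  rw [spec hZ, pr_inj, zero_add] at h
  exact h.1

lemma hh_of (hZ : Rank n Z) {φ : Aut (ℤ ×ₗ Z)} {i m : ℤ} {χ : Aut Z}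
    (h : ∀ x, φ (pr i x) = pr m (χ x)) : hh hZ φ i = χ := by
  ext x
  have := h x
  rw [spec hZ, pr_inj] at this
  exact this.2

/-- `Aut (ℤ ×ₗ Z)` is the wreath product of `Aut Z` and `ℤ`. -/
noncomputable def wrCoord (hZ : Rank n Z) : WrCoord (Aut (ℤ ×ₗ Z)) (Aut Z) where
  K := K hZ
  h := hh hZ
  ext := by
    intro a b h1 h2
    ext p
    obtain ⟨n, x, rfl⟩ := cases p
    rw [spec hZ, spec hZ, h1, h2]
  K_mul a b := K_of hZ (x := hZ.nonempty.some) (by
    rw [Aut.mul_apply, spec hZ, spec hZ, pr_inj]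
    exact ⟨by ring, rfl⟩)
  h_mul a b i := hh_of hZ (m := i + K hZ b + K hZ a) fun x => by
    rw [Aut.mul_apply, spec hZ, spec hZ, Aut.mul_apply]
  K_sup a b := by
    rcases lt_trichotomy (K hZ a) (K hZ b) with h | h | h
    · rw [max_eq_right h.le]
      exact K_of hZ (x := hZ.nonempty.some) (by
        rw [Aut.sup_apply, spec hZ, spec hZ, max_eq_right (pr_lt.2 (Or.inl (by omega))).le,
          zero_add])
    · rw [h, max_self]
      exact K_of hZ (x := hZ.nonempty.some) (by
        rw [Aut.sup_apply, spec hZ, spec hZ, h, max_pr, zero_add])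
    · rw [max_eq_left h.le]
      exact K_of hZ (x := hZ.nonempty.some) (by
        rw [Aut.sup_apply, spec hZ, spec hZ, max_eq_left (pr_lt.2 (Or.inl (by omega))).le,
          zero_add])
  K_inf a b := by
    rcases lt_trichotomy (K hZ a) (K hZ b) with h | h | h
    · rw [min_eq_left h.le]
      exact K_of hZ (x := hZ.nonempty.some) (by
        rw [Aut.inf_apply, spec hZ, spec hZ, min_eq_left (pr_lt.2 (Or.inl (by omega))).le,
          zero_add])
    · rw [h, min_self]
      exact K_of hZ (x := hZ.nonempty.some) (by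
        rw [Aut.inf_apply, spec hZ, spec hZ, h, min_pr, zero_add])
    · rw [min_eq_right h.le]
      exact K_of hZ (x := hZ.nonempty.some) (by
        rw [Aut.inf_apply, spec hZ, spec hZ, min_eq_right (pr_lt.2 (Or.inl (by omega))).le,
          zero_add])
  h_sup a b i := by
    rcases lt_trichotomy (K hZ a) (K hZ b) with h | h | h
    · rw [if_pos h]
      exact hh_of hZ (m := i + K hZ b) fun x => by
        rw [Aut.sup_apply, spec hZ, spec hZ, max_eq_right (pr_lt.2 (Or.inl (by omega))).le]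
    · rw [if_neg (by omega), if_neg (by omega)]
      exact hh_of hZ (m := i + K hZ b) fun x => by
        rw [Aut.sup_apply, spec hZ, spec hZ, h, max_pr, Aut.sup_apply]
    · rw [if_neg (by omega), if_pos h]
      exact hh_of hZ (m := i + K hZ a) fun x => by
        rw [Aut.sup_apply, spec hZ, spec hZ, max_eq_left (pr_lt.2 (Or.inl (by omega))).le]
  h_inf a b i := by
    rcases lt_trichotomy (K hZ a) (K hZ b) with h | h | h
    · rw [if_pos h]
      exact hh_of hZ (m := i + K hZ a) fun x => by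
        rw [Aut.inf_apply, spec hZ, spec hZ, min_eq_left (pr_lt.2 (Or.inl (by omega))).le]
    · rw [if_neg (by omega), if_neg (by omega)]
      exact hh_of hZ (m := i + K hZ b) fun x => by
        rw [Aut.inf_apply, spec hZ, spec hZ, h, min_pr, Aut.inf_apply]
    · rw [if_neg (by omega), if_pos h]
      exact hh_of hZ (m := i + K hZ b) fun x => by
        rw [Aut.inf_apply, spec hZ, spec hZ, min_eq_right (pr_lt.2 (Or.inl (by omega))).le]
  surj k f := ⟨shift k f, K_of hZ (x := hZ.nonempty.some) (by rw [shift_pr, zero_add]),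
    fun i => hh_of hZ (m := i + k) fun x => by rw [shift_pr]⟩

end Pool.Agent.H60.QV.ZStep
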