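import Pool.Agent.H60.QV.Coord

/-! # The coordinates on `Aut (ℤ ×ₗ ℤ)` -/

set_option autoImplicit false

namespace Pool.Agent.H60.QV.ZZ

/-- The point `(n, x)`. -/
def pt (n x : ℤ) : ℤ ×ₗ ℤ := toLex (n, x)

lemma cases (p : ℤ ×ₗ ℤ) : ∃ n x, p = pt n x := by
  obtain ⟨⟨n, x⟩, rfl⟩ := toLex.surjective p
  exact ⟨n, x, rfl⟩

lemma pt_inj {n m x y : ℤ} : pt n x = pt m y ↔ n = m ∧ x = y := by
  simp [pt]

lemma pt_lt {n m x y : ℤ} : pt n x < pt m y ↔ n < m ∨ n = m ∧ x < y := by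
  simp [pt, Prod.Lex.toLex_lt_toLex]

lemma pt_cov {n m x y : ℤ} : pt n x ⋖ pt m y ↔ n = m ∧ y = x + 1 := by
  constructor
  · rintro ⟨h1, h2⟩
    rcases pt_lt.1 h1 with h | ⟨h, h'⟩
    · exact absurd (pt_lt.2 (Or.inl h) : pt n (x + 1) < pt m y)
        (h2 (pt_lt.2 (Or.inr ⟨rfl, by omega⟩)))
    · refine ⟨h, ?_⟩
      by_contra hc
      exact h2 (c := pt n (x + 1)) (pt_lt.2 (Or.inr ⟨rfl, by omega⟩))
        (pt_lt.2 (Or.inr ⟨h, by omega⟩))
  · rintro ⟨rfl, rfl⟩
    refine ⟨pt_lt.2 (Or.inr ⟨rfl, by omega⟩), fun c h1 h2 => ?_⟩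
    obtain ⟨a, b, rfl⟩ := cases c
    rw [pt_lt] at h1 h2
    omega

lemma max_pt (n x y : ℤ) : max (pt n x) (pt n y) = pt n (max x y) := by
  rcases lt_trichotomy x y with h | rfl | h
  · rw [max_eq_right h.le, max_eq_right (pt_lt.2 (Or.inr ⟨rfl, h⟩)).le]
  · simp
  · rw [max_eq_left h.le, max_eq_left (pt_lt.2 (Or.inr ⟨rfl, h⟩)).le]

lemma min_pt (n x y : ℤ) : min (pt n x) (pt n y) = pt n (min x y) := by
  rcases lt_trichotomy x y with h | rfl | h
  · rw [min_eq_left h.le, min_eq_left (pt_lt.2 (Or.inr ⟨rfl, h⟩)).le]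
  · simp
  · rw [min_eq_right h.le, min_eq_right (pt_lt.2 (Or.inr ⟨rfl, h⟩)).le]

/-- The structure of the automorphisms of `ℤ ×ₗ ℤ`. -/
lemma struct (φ : Aut (ℤ ×ₗ ℤ)) :
    ∃ (k : ℤ) (r : ℤ → ℤ), ∀ n x, φ (pt n x) = pt (n + k) (x + r n) := by
  choose τ g hτ using fun n => cases (φ (pt n 0))
  have hcov : ∀ {a b : ℤ ×ₗ ℤ}, a ⋖ b → φ a ⋖ φ b := fun {a b} h =>
    (apply_covBy_apply_iff φ.iso).2 h
  have hs : ∀ n x m y, φ (pt n x) = pt m y → φ (pt n (x + 1)) = pt m (y + 1) := by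
    intro n x m y h
    have h1 : φ (pt n x) ⋖ φ (pt n (x + 1)) := hcov (pt_cov.2 ⟨rfl, rfl⟩)
    obtain ⟨a, b, hab⟩ := cases (φ (pt n (x + 1)))
    rw [h, hab, pt_cov] at h1
    rw [hab, h1.1, h1.2]
  have hp : ∀ n x m y, φ (pt n x) = pt m y → φ (pt n (x - 1)) = pt m (y - 1) := by
    intro n x m y h
    obtain ⟨a, b, hab⟩ := cases (φ (pt n (x - 1)))
    have h1 := hs _ _ _ _ hab
    rw [sub_add_cancel, h, pt_inj] at h1
    rw [hab, pt_inj]
    omega
  have hx : ∀ n x, φ (pt n x) = pt (τ n) (x + g n) := by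
    intro n x
    induction x using Int.induction_on with
    | zero => rw [hτ, zero_add]
    | succ x ih => rw [hs _ _ _ _ ih, pt_inj]; exact ⟨rfl, by ring⟩
    | pred x ih => rw [hp _ _ _ _ ih, pt_inj]; exact ⟨rfl, by ring⟩
  have hmono : ∀ n m, n < m → τ n < τ m := by
    intro n m h
    have h1 : φ (pt n (g m - g n)) < φ (pt m 0) := φ.lt_iff.2 (pt_lt.2 (Or.inl h))
    rw [hx, hx, pt_lt] at h1
    omega
  have hsurj : ∀ m, ∃ n, τ n = m := by
    intro m
    obtain ⟨n, x, hn⟩ := cases (φ⁻¹ (pt m 0))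
    have h1 : φ (pt n x) = pt m 0 := by rw [← hn, Aut.apply_inv_self]
    rw [hx, pt_inj] at h1
    exact ⟨n, h1.1⟩
  have hmono' : ∀ n m, τ n < τ m → n < m := by
    intro n m h
    by_contra hc
    rcases (not_lt.1 hc).lt_or_eq with h1 | h1
    · exact absurd (hmono _ _ h1) (by omega)
    · rw [h1] at h
      exact absurd h (lt_irrefl _)
  have hsucc : ∀ n, τ (n + 1) = τ n + 1 := by
    intro n
    obtain ⟨m, hm⟩ := hsurj (τ n + 1)
    have h1 := hmono' n m (by omega)
    rcases (Int.add_one_le_iff.2 h1).lt_or_eq with h2 | h2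
    · have h3 := hmono _ _ h2
      have h4 := hmono n (n + 1) (by omega)
      omega
    · rw [h2, hm]
  have hk : ∀ n, τ n = n + τ 0 := by
    intro n
    induction n using Int.induction_on with
    | zero => simp
    | succ n ih => rw [hsucc, ih]; ring
    | pred n ih =>
      have := hsucc (-(n : ℤ) - 1)
      rw [sub_add_cancel, ih] at this
      linarith
  exact ⟨τ 0, g, fun n x => by rw [hx, hk]⟩

/-- The shift of the copies. -/
noncomputable def kz (φ : Aut (ℤ ×ₗ ℤ)) : ℤ := (struct φ).choose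
/-- The translations. -/
noncomputable def rz (φ : Aut (ℤ ×ₗ ℤ)) : ℤ → ℤ := (struct φ).choose_spec.choose
lemma spec (φ : Aut (ℤ ×ₗ ℤ)) (n x : ℤ) : φ (pt n x) = pt (n + kz φ) (x + rz φ n) :=
  (struct φ).choose_spec.choose_spec n x

lemma eq_of {φ : Aut (ℤ ×ₗ ℤ)} {n m y : ℤ} (h : φ (pt n 0) = pt m y) :
    n + kz φ = m ∧ rz φ n = y := by
  rw [spec, pt_inj, zero_add] at h
  exact h

/-- The automorphism with given coordinates. -/
def mkZ (k : ℤ) (r : ℤ → ℤ) : Aut (ℤ ×ₗ ℤ) where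
  toFun p := toLex ((ofLex p).1 + k, (ofLex p).2 + r (ofLex p).1)
  invFun p := toLex ((ofLex p).1 - k, (ofLex p).2 - r ((ofLex p).1 - k))
  left_inv p := by simp
  right_inv p := by simp
  map_rel_iff' := by
    intro a b
    obtain ⟨⟨n, x⟩, rfl⟩ := toLex.surjective a
    obtain ⟨⟨m, y⟩, rfl⟩ := toLex.surjective b
    simp only [Equiv.coe_fn_mk, Prod.Lex.toLex_le_toLex, ofLex_toLex, add_lt_add_iff_right,
      add_left_inj]
    constructor
    · rintro (h | ⟨rfl, h⟩)
      · exact Or.inl h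
      · exact Or.inr ⟨rfl, by linarith⟩
    · rintro (h | ⟨rfl, h⟩)
      · exact Or.inl h
      · exact Or.inr ⟨rfl, by linarith⟩

lemma mkZ_pt (k : ℤ) (r : ℤ → ℤ) (n x : ℤ) : mkZ k r (pt n x) = pt (n + k) (x + r n) := rfl

/-- The coordinates on `Aut (ℤ ×ₗ ℤ)`. -/
noncomputable def coordZZ : Coord (Aut (ℤ ×ₗ ℤ)) where
  K := kz
  ρ φ n := (rz φ n : ℝ)
  ext := by
    intro a b h1 h2
    ext p
    obtain ⟨n, x, rfl⟩ := cases p
    have h3 : rz a n = rz b n := by exact_mod_cast h2 n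
    rw [spec, spec, h1, h3]
  K_mul a b := by
    have := (eq_of (φ := a * b) (n := 0) (by rw [Aut.mul_apply, spec, spec])).1
    linarith
  ρ_mul a b n := by
    have := (eq_of (φ := a * b) (n := n) (by rw [Aut.mul_apply, spec, spec])).2
    rw [this]
    push_cast
    ring
  K_sup a b := by
    rcases lt_trichotomy (kz a) (kz b) with h | h | h
    · have := (eq_of (φ := a ⊔ b) (n := 0) (by
        rw [Aut.sup_apply, spec, spec b, max_eq_right (pt_lt.2 (Or.inl (by omega))).le])).1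
      rw [max_eq_right h.le]
      linarith
    · have := (eq_of (φ := a ⊔ b) (n := 0) (by
        rw [Aut.sup_apply, spec, spec b, h, max_pt])).1
      rw [h, max_self]
      linarith
    · have := (eq_of (φ := a ⊔ b) (n := 0) (by
        rw [Aut.sup_apply, spec, spec b, max_eq_left (pt_lt.2 (Or.inl (by omega))).le])).1
      rw [max_eq_left h.le]
      linarith
  K_inf a b := by
    rcases lt_trichotomy (kz a) (kz b) with h | h | h
    · have := (eq_of (φ := a ⊓ b) (n := 0) (by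
        rw [Aut.inf_apply, spec, spec b, min_eq_left (pt_lt.2 (Or.inl (by omega))).le])).1
      rw [min_eq_left h.le]
      linarith
    · have := (eq_of (φ := a ⊓ b) (n := 0) (by
        rw [Aut.inf_apply, spec, spec b, h, min_pt])).1
      rw [h, min_self]
      linarith
    · have := (eq_of (φ := a ⊓ b) (n := 0) (by
        rw [Aut.inf_apply, spec, spec b, min_eq_right (pt_lt.2 (Or.inl (by omega))).le])).1
      rw [min_eq_right h.le]
      linarith
  ρ_sup a b n := by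
    rcases lt_trichotomy (kz a) (kz b) with h | h | h
    · rw [if_pos h, (eq_of (φ := a ⊔ b) (n := n) (by
        rw [Aut.sup_apply, spec, spec b, max_eq_right (pt_lt.2 (Or.inl (by omega))).le])).2,
        zero_add]
    · rw [if_neg (by omega), if_neg (by omega), (eq_of (φ := a ⊔ b) (n := n) (by
        rw [Aut.sup_apply, spec, spec b, h, max_pt])).2]
      simp
    · rw [if_neg (by omega), if_pos h, (eq_of (φ := a ⊔ b) (n := n) (by
        rw [Aut.sup_apply, spec, spec b, max_eq_left (pt_lt.2 (Or.inl (by omega))).le])).2,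
        zero_add]
  ρ_inf a b n := by
    rcases lt_trichotomy (kz a) (kz b) with h | h | h
    · rw [if_pos h, (eq_of (φ := a ⊓ b) (n := n) (by
        rw [Aut.inf_apply, spec, spec b, min_eq_left (pt_lt.2 (Or.inl (by omega))).le])).2,
        zero_add]
    · rw [if_neg (by omega), if_neg (by omega), (eq_of (φ := a ⊓ b) (n := n) (by
        rw [Aut.inf_apply, spec, spec b, h, min_pt])).2]
      simp
    · rw [if_neg (by omega), if_pos h, (eq_of (φ := a ⊓ b) (n := n) (by
        rw [Aut.inf_apply, spec, spec b, min_eq_right (pt_lt.2 (Or.inl (by omega))).le])).2,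
        zero_add]
  int k r := by
    refine ⟨mkZ k r, ?_, fun n => ?_⟩
    · have := (eq_of (φ := mkZ k r) (n := 0) (mkZ_pt k r 0 0)).1
      linarith
    · have := (eq_of (φ := mkZ k r) (n := n) (mkZ_pt k r n 0)).2
      rw [this, zero_add]
  rat a n := ⟨1, one_pos, rz a n, by simp⟩

end Pool.Agent.H60.QV.ZZ
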